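import Pool.Agent.Lib.MP_0ea5e1_co.Separate

/-!
The helical tube is cubic and 3-connected.
-/

namespace Pool.Agent.Lib.MP_0ea5e1_co

lemma ncard_of {n v x y z : ℕ} (hv : v < n + 2) (hx : x < n + 2) (hy : y < n + 2)
    (hz : z < n + 2) (hxy : x ≠ y) (hxz : x ≠ z) (hyz : y ≠ z)
    (h : ∀ w, w < n + 2 → ((v ≠ w ∧ (tubeRel n v w ∨ tubeRel n w v)) ↔ (w = x ∨ w = y ∨ w = z))) :
    ((tube n).neighborSet (vx n v)).ncard = 3 := by
  rw [Set.ncard_eq_three]
  refine ⟨vx n x, vx n y, vx n z, vx_ne hx hy hxy, vx_ne hx hz hxz, vx_ne hy hz hyz, ?_⟩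
  ext w
  have h' := h w.val w.isLt
  have e1 : ∀ k, k < n + 2 → (w = vx n k ↔ w.val = k) := by
    intro k hk
    constructor
    · intro h0; rw [h0, vx_val hk]
    · intro h0; apply Fin.ext; rw [h0, vx_val hk]
  simp only [Set.mem_insert_iff, Set.mem_singleton_iff, SimpleGraph.mem_neighborSet]
  rw [e1 x hx, e1 y hy, e1 z hz, ← h']
  unfold tube
  simp only
  rw [vx_val hv]
  constructor
  · rintro ⟨h1, h2⟩
    refine ⟨?_, h2⟩
    intro h0
    apply h1
    apply Fin.ext
    rw [vx_val hv]; exact h0
  · rintro ⟨h1, h2⟩
    refine ⟨?_, h2⟩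
    intro h0
    apply h1
    rw [← h0, vx_val hv]

lemma tube_cubic {n : ℕ} (hn : n % 2 = 0) (hn12 : 12 ≤ n) (v : Fin (n + 2)) :
    ((tube n).neighborSet v).ncard = 3 := by
  have hv : v = vx n v.val := by apply Fin.ext; rw [vx_val v.isLt]
  rw [hv]
  have hlt := v.isLt
  generalize v.val = u at hlt
  by_cases h0 : u = 0
  · exact ncard_of (x := 1) (y := 5) (z := n) (by omega) (by omega) (by omega) (by omega)
      (by omega) (by omega) (by omega) (by intro w hw; unfold tubeRel; omega)
  by_cases h1 : u = 1
  · exact ncard_of (x := 0) (y := 2) (z := n) (by omega) (by omega) (by omega) (by omega)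
      (by omega) (by omega) (by omega) (by intro w hw; unfold tubeRel; omega)
  by_cases h3 : u = 3
  · exact ncard_of (x := 2) (y := 4) (z := n) (by omega) (by omega) (by omega) (by omega)
      (by omega) (by omega) (by omega) (by intro w hw; unfold tubeRel; omega)
  by_cases h4 : u = n
  · exact ncard_of (x := 0) (y := 1) (z := 3) (by omega) (by omega) (by omega) (by omega)
      (by omega) (by omega) (by omega) (by intro w hw; unfold tubeRel; omega)
  by_cases h5 : u = n + 1
  · exact ncard_of (x := n - 4) (y := n - 2) (z := n - 1) (by omega) (by omega) (by omega)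
      (by omega) (by omega) (by omega) (by omega) (by intro w hw; unfold tubeRel; omega)
  by_cases h6 : u + 1 = n
  · exact ncard_of (x := n - 2) (y := n - 6) (z := n + 1) (by omega) (by omega) (by omega)
      (by omega) (by omega) (by omega) (by omega) (by intro w hw; unfold tubeRel; omega)
  by_cases h7 : u + 2 = n
  · exact ncard_of (x := n - 3) (y := n - 1) (z := n + 1) (by omega) (by omega) (by omega)
      (by omega) (by omega) (by omega) (by omega) (by intro w hw; unfold tubeRel; omega)
  by_cases h8 : u + 4 = n
  · exact ncard_of (x := n - 5) (y := n - 3) (z := n + 1) (by omega) (by omega) (by omega)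
      (by omega) (by omega) (by omega) (by omega) (by intro w hw; unfold tubeRel; omega)
  by_cases h9 : u % 2 = 0
  · exact ncard_of (x := u - 1) (y := u + 1) (z := u + 5) (by omega) (by omega) (by omega)
      (by omega) (by omega) (by omega) (by omega) (by intro w hw; unfold tubeRel; omega)
  · exact ncard_of (x := u - 1) (y := u + 1) (z := u - 5) (by omega) (by omega) (by omega)
      (by omega) (by omega) (by omega) (by omega) (by intro w hw; unfold tubeRel; omega)

section Core

variable {n x y : ℕ} {C : ℕ → ℕ → Prop}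

lemma seg_core (hrefl : ∀ a, C a a) (htrans : ∀ a b c, C a b → C b c → C a c)
    (path : ∀ a, a + 1 < n → a ≠ x → a ≠ y → a + 1 ≠ x → a + 1 ≠ y → C a (a + 1)) :
    ∀ d a, a + d < n → (∀ k, a ≤ k → k ≤ a + d → k ≠ x ∧ k ≠ y) → C a (a + d) := by
  intro d
  induction d with
  | zero => intro a _ _; exact hrefl a
  | succ d ih =>
    intro a ha hk
    have h1 := ih a (by omega) (fun k h1 h2 => hk k h1 (by omega))
    have h2 := hk (a + d) (by omega) (by omega)
    have h3 := hk (a + d + 1) (by omega) (by omega)
    exact htrans _ _ _ h1 (path (a + d) (by omega) h2.1 h2.2 h3.1 h3.2)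

lemma conn_core (hn : n % 2 = 0) (hn12 : 12 ≤ n) (hxy : x < y) (hy : y < n + 2)
    (hrefl : ∀ a, C a a) (hsymm : ∀ a b, C a b → C b a)
    (htrans : ∀ a b c, C a b → C b c → C a c)
    (hadj : ∀ a b, a < n + 2 → b < n + 2 → a ≠ x → a ≠ y → b ≠ x → b ≠ y → tubeRel n a b → C a b) :
    ∀ a b, a < n + 2 → b < n + 2 → a ≠ x → a ≠ y → b ≠ x → b ≠ y → C a b := by
  have path : ∀ a, a + 1 < n → a ≠ x → a ≠ y → a + 1 ≠ x → a + 1 ≠ y → C a (a + 1) := by
    intro a h1 h2 h3 h4 h5
    exact hadj _ _ (by omega) (by omega) h2 h3 h4 h5 (by unfold tubeRel; omega)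
  have rung : ∀ a, a % 2 = 0 → a + 5 < n → a ≠ x → a ≠ y → a + 5 ≠ x → a + 5 ≠ y →
      C a (a + 5) := by
    intro a h0 h1 h2 h3 h4 h5
    exact hadj _ _ (by omega) (by omega) h2 h3 h4 h5 (by unfold tubeRel; omega)
  have capO : ∀ a, (a = 0 ∨ a = 1 ∨ a = 3) → a ≠ x → a ≠ y → n ≠ x → n ≠ y → C a n := by
    intro a h0 h2 h3 h4 h5
    exact hadj _ _ (by omega) (by omega) h2 h3 h4 h5 (by unfold tubeRel; omega)
  have capC : ∀ a, (a + 4 = n ∨ a + 2 = n ∨ a + 1 = n) → a ≠ x → a ≠ y → n + 1 ≠ x →
      n + 1 ≠ y → C a (n + 1) := by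
    intro a h0 h2 h3 h4 h5
    exact hadj _ _ (by omega) (by omega) h2 h3 h4 h5 (by unfold tubeRel; omega)
  have seg : ∀ a b, a ≤ b → b < n → (∀ k, a ≤ k → k ≤ b → k ≠ x ∧ k ≠ y) → C a b := by
    intro a b hab hb hk
    have := seg_core hrefl htrans path (b - a) a (by omega) (fun k h1 h2 => hk k h1 (by omega))
    rwa [show a + (b - a) = b by omega] at this
  clear hadj
  -- reduction to a common vertex
  suffices hr : ∃ r, ∀ a, a < n + 2 → a ≠ x → a ≠ y → C a r by
    obtain ⟨r, hr⟩ := hr
    intro a b ha hb h1 h2 h3 h4
    exact htrans _ _ _ (hr a ha h1 h2) (hsymm _ _ (hr b hb h3 h4))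
  by_cases hyn : y < n
  · -- both removed vertices on the path
    have hL : ∀ w, w < x → C w n := by
      intro w hw
      have h1 : C 0 w := seg 0 w (by omega) (by omega) (fun k h1 h2 => by omega)
      exact htrans _ _ _ (hsymm _ _ h1) (capO 0 (by omega) (by omega) (by omega) (by omega) (by omega))
    have hR : ∀ w, y < w → w < n → C w (n + 1) := by
      intro w hw hwn
      have h1 : C w (n - 1) := seg w (n - 1) (by omega) (by omega) (fun k h1 h2 => by omega)
      exact htrans _ _ _ h1 (capC (n - 1) (by omega) (by omega) (by omega) (by omega) (by omega))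
    have hM : ∀ w w', x < w → w < y → x < w' → w' < y → C w w' := by
      intro w w' h1 h2 h3 h4
      rcases le_total w w' with h | h
      · exact seg w w' h (by omega) (fun k h1 h2 => by omega)
      · exact hsymm _ _ (seg w' w h (by omega) (fun k h1 h2 => by omega))
    -- (d)
    have hd : x + 2 ≤ y → (C (x + 1) n ∨ C (x + 1) (n + 1)) := by
      intro hxy2
      by_cases ho : (x + 1) % 2 = 1
      · left
        by_cases h5 : 5 ≤ x + 1
        · have h1 := rung (x - 4) (by omega) (by omega) (by omega) (by omega) (by omega) (by omega)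
          rw [show x - 4 + 5 = x + 1 by omega] at h1
          exact htrans _ _ _ (hsymm _ _ h1) (hL _ (by omega))
        · exact capO (x + 1) (by omega) (by omega) (by omega) (by omega) (by omega)
      · by_cases h2 : x + 2 < y
        · left
          have h3 := path (x + 1) (by omega) (by omega) (by omega) (by omega) (by omega)
          refine htrans _ _ _ h3 ?_
          by_cases h5 : 5 ≤ x + 2
          · have h1 := rung (x - 3) (by omega) (by omega) (by omega) (by omega) (by omega) (by omega)
            rw [show x - 3 + 5 = x + 1 + 1 by omega] at h1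
            exact htrans _ _ _ (hsymm _ _ h1) (hL _ (by omega))
          · exact capO (x + 1 + 1) (by omega) (by omega) (by omega) (by omega) (by omega)
        · right
          by_cases h6 : x + 6 < n
          · have h1 := rung (x + 1) (by omega) (by omega) (by omega) (by omega) (by omega) (by omega)
            exact htrans _ _ _ h1 (hR _ (by omega) (by omega))
          · exact capC (x + 1) (by omega) (by omega) (by omega) (by omega) (by omega)
    -- (ii)
    have hii : ∃ z, C n z ∧ ((x < z ∧ z < y) ∨ z = n + 1 ∨ (y < z ∧ z < n)) := by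
      by_cases hx0 : x = 0
      · by_cases hy1 : y = 1
        · exact ⟨3, hsymm _ _ (capO 3 (by omega) (by omega) (by omega) (by omega) (by omega)),
            by omega⟩
        · exact ⟨1, hsymm _ _ (capO 1 (by omega) (by omega) (by omega) (by omega) (by omega)),
            by omega⟩
      by_cases hx4 : x ≤ 4
      · by_cases hy5 : y = 5
        · by_cases hx3 : 3 ≤ x
          · refine ⟨7, ?_, by omega⟩
            have h1 := rung 2 (by omega) (by omega) (by omega) (by omega) (by omega) (by omega)
            exact htrans _ _ _ (hsymm _ _ (hL 2 (by omega))) h1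
          · exact ⟨3, hsymm _ _ (capO 3 (by omega) (by omega) (by omega) (by omega) (by omega)),
              by omega⟩
        · refine ⟨5, ?_, by omega⟩
          have h1 := rung 0 (by omega) (by omega) (by omega) (by omega) (by omega) (by omega)
          exact htrans _ _ _ (hsymm _ _ (hL 0 (by omega))) h1
      · -- x ≥ 5
        obtain ⟨e, he1, he2, he3⟩ : ∃ e, e % 2 = 0 ∧ e + 1 ≤ x ∧ x ≤ e + 2 := by
          by_cases hx2 : x % 2 = 0
          · exact ⟨x - 2, by omega, by omega, by omega⟩
          · exact ⟨x - 1, by omega, by omega, by omega⟩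
        by_cases hey : e + 3 = y
        · by_cases hen : e + 5 < n
          · refine ⟨e + 5, ?_, by omega⟩
            have h1 := rung e (by omega) (by omega) (by omega) (by omega) (by omega) (by omega)
            exact htrans _ _ _ (hsymm _ _ (hL e (by omega))) h1
          · refine ⟨n + 1, ?_, by omega⟩
            have h1 := capC e (by omega) (by omega) (by omega) (by omega) (by omega)
            exact htrans _ _ _ (hsymm _ _ (hL e (by omega))) h1
        · refine ⟨e + 3, ?_, by omega⟩
          have h1 := rung (e - 2) (by omega) (by omega) (by omega) (by omega) (by omega) (by omega)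
          rw [show e - 2 + 5 = e + 3 by omega] at h1
          exact htrans _ _ _ (hsymm _ _ (hL (e - 2) (by omega))) h1
    -- (iii)
    have hiii : ∃ z, C (n + 1) z ∧ ((x < z ∧ z < y) ∨ z = n ∨ z < x) := by
      by_cases hy1 : y + 1 = n
      · by_cases hx2 : x + 2 = n
        · exact ⟨n - 4, hsymm _ _ (capC (n - 4) (by omega) (by omega) (by omega) (by omega)
            (by omega)), by omega⟩
        · exact ⟨n - 2, hsymm _ _ (capC (n - 2) (by omega) (by omega) (by omega) (by omega)
            (by omega)), by omega⟩
      by_cases hy5 : n ≤ y + 5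
      · by_cases hx6 : x + 6 = n
        · by_cases hy4 : y + 4 ≤ n
          · refine ⟨n - 8, ?_, by omega⟩
            have h1 := rung (n - 8) (by omega) (by omega) (by omega) (by omega) (by omega) (by omega)
            exact htrans _ _ _ (hsymm _ _ (hR (n - 8 + 5) (by omega) (by omega))) (hsymm _ _ h1)
          · exact ⟨n - 4, hsymm _ _ (capC (n - 4) (by omega) (by omega) (by omega) (by omega)
              (by omega)), by omega⟩
        · refine ⟨n - 6, ?_, by omega⟩
          have h1 := rung (n - 6) (by omega) (by omega) (by omega) (by omega) (by omega) (by omega)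
          exact htrans _ _ _ (hsymm _ _ (hR (n - 6 + 5) (by omega) (by omega))) (hsymm _ _ h1)
      · obtain ⟨f, hf1, hf2, hf3⟩ : ∃ f, f % 2 = 1 ∧ y + 1 ≤ f ∧ f ≤ y + 2 := by
          by_cases hy2 : y % 2 = 0
          · exact ⟨y + 1, by omega, by omega, by omega⟩
          · exact ⟨y + 2, by omega, by omega, by omega⟩
        by_cases hfx : f - 3 = x
        · by_cases hf5 : 5 ≤ f
          · refine ⟨f - 5, ?_, by omega⟩
            have h1 := rung (f - 5) (by omega) (by omega) (by omega) (by omega) (by omega) (by omega)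
            exact htrans _ _ _ (hsymm _ _ (hR (f - 5 + 5) (by omega) (by omega))) (hsymm _ _ h1)
          · refine ⟨n, ?_, by omega⟩
            have h1 := capO f (by omega) (by omega) (by omega) (by omega) (by omega)
            exact htrans _ _ _ (hsymm _ _ (hR f (by omega) (by omega))) h1
        · refine ⟨f - 3, ?_, by omega⟩
          have h1 := rung (f - 3) (by omega) (by omega) (by omega) (by omega) (by omega) (by omega)
          exact htrans _ _ _ (hsymm _ _ (hR (f - 3 + 5) (by omega) (by omega))) (hsymm _ _ h1)
    have hoc : C n (n + 1) := by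
      obtain ⟨z, hz1, hz2⟩ := hii
      obtain ⟨z', hz1', hz2'⟩ := hiii
      rcases hz2 with hz2 | hz2 | hz2
      · rcases hz2' with hz2' | hz2' | hz2'
        · exact htrans _ _ _ hz1 (htrans _ _ _ (hM z z' hz2.1 hz2.2 hz2'.1 hz2'.2)
            (hsymm _ _ hz1'))
        · rw [hz2'] at hz1'; exact hsymm _ _ hz1'
        · exact htrans _ _ _ (hsymm _ _ (hL z' hz2')) (hsymm _ _ hz1')
      · rw [hz2] at hz1; exact hz1
      · exact htrans _ _ _ hz1 (hR z hz2.1 hz2.2)
    refine ⟨n, ?_⟩
    intro a ha h1 h2
    by_cases ha1 : a < x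
    · exact hL a ha1
    by_cases ha2 : a < y
    · have h3 : C a (x + 1) := hM a (x + 1) (by omega) ha2 (by omega) (by omega)
      rcases hd (by omega) with h4 | h4
      · exact htrans _ _ _ h3 h4
      · exact htrans _ _ _ h3 (htrans _ _ _ h4 (hsymm _ _ hoc))
    by_cases ha3 : a < n
    · exact htrans _ _ _ (hR a (by omega) ha3) (hsymm _ _ hoc)
    by_cases ha4 : a = n
    · rw [ha4]; exact hrefl n
    · have : a = n + 1 := by omega
      rw [this]; exact hsymm _ _ hoc
  by_cases hyn2 : y = n
  · -- the cap `n` is removed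
    by_cases hx1 : x + 1 = n
    · refine ⟨n + 1, ?_⟩
      intro a ha h1 h2
      by_cases han : a < n
      · have h3 : C a (n - 2) := seg a (n - 2) (by omega) (by omega) (fun k h1 h2 => by omega)
        exact htrans _ _ _ h3 (capC (n - 2) (by omega) (by omega) (by omega) (by omega) (by omega))
      · have : a = n + 1 := by omega
        rw [this]; exact hrefl _
    · have hR : ∀ w, x < w → w < n → C w (n + 1) := by
        intro w hw hwn
        have h1 : C w (n - 1) := seg w (n - 1) (by omega) (by omega) (fun k h1 h2 => by omega)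
        exact htrans _ _ _ h1 (capC (n - 1) (by omega) (by omega) (by omega) (by omega) (by omega))
      have hL : ∀ w w', w < x → w' < x → C w w' := by
        intro w w' h1 h2
        rcases le_total w w' with h | h
        · exact seg w w' h (by omega) (fun k h1 h2 => by omega)
        · exact hsymm _ _ (seg w' w h (by omega) (fun k h1 h2 => by omega))
      refine ⟨n + 1, ?_⟩
      intro a ha h1 h2
      by_cases hax : a < x
      · by_cases hx4 : x ≤ 4
        · have h3 := rung 0 (by omega) (by omega) (by omega) (by omega) (by omega) (by omega)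
          exact htrans _ _ _ (hL a 0 hax (by omega)) (htrans _ _ _ h3 (hR 5 (by omega) (by omega)))
        · obtain ⟨e, he1, he2, he3⟩ : ∃ e, e % 2 = 0 ∧ e + 1 ≤ x ∧ x ≤ e + 2 := by
            by_cases hx2 : x % 2 = 0
            · exact ⟨x - 2, by omega, by omega, by omega⟩
            · exact ⟨x - 1, by omega, by omega, by omega⟩
          have h3 := rung (e - 2) (by omega) (by omega) (by omega) (by omega) (by omega) (by omega)
          exact htrans _ _ _ (hL a (e - 2) hax (by omega))
            (htrans _ _ _ h3 (hR (e - 2 + 5) (by omega) (by omega)))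
      · by_cases han : a < n
        · exact hR a (by omega) han
        · have : a = n + 1 := by omega
          rw [this]; exact hrefl _
  · -- the cap `n + 1` is removed
    have hyn3 : y = n + 1 := by omega
    by_cases hxn : x = n
    · refine ⟨0, ?_⟩
      intro a ha h1 h2
      exact hsymm _ _ (seg 0 a (by omega) (by omega) (fun k h1 h2 => by omega))
    have hL : ∀ w, w < x → C w n := by
      intro w hw
      have h1 : C 0 w := seg 0 w (by omega) (by omega) (fun k h1 h2 => by omega)
      exact htrans _ _ _ (hsymm _ _ h1) (capO 0 (by omega) (by omega) (by omega) (by omega) (by omega))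
    have hR : ∀ w w', x < w → x < w' → w < n → w' < n → C w w' := by
      intro w w' h1 h2 h3 h4
      rcases le_total w w' with h | h
      · exact seg w w' h (by omega) (fun k h1 h2 => by omega)
      · exact hsymm _ _ (seg w' w h (by omega) (fun k h1 h2 => by omega))
    refine ⟨n, ?_⟩
    intro a ha h1 h2
    by_cases hax : a < x
    · exact hL a hax
    by_cases han : a < n
    · by_cases hx0 : x = 0
      · exact htrans _ _ _ (hR a 1 (by omega) (by omega) han (by omega))
          (capO 1 (by omega) (by omega) (by omega) (by omega) (by omega))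
      by_cases hx5 : n ≤ x + 5
      · have h3 := rung (n - 6) (by omega) (by omega) (by omega) (by omega) (by omega) (by omega)
        exact htrans _ _ _ (hR a (n - 6 + 5) (by omega) (by omega) han (by omega))
          (htrans _ _ _ (hsymm _ _ h3) (hL (n - 6) (by omega)))
      · obtain ⟨f, hf1, hf2, hf3⟩ : ∃ f, f % 2 = 1 ∧ x + 1 ≤ f ∧ f ≤ x + 2 := by
          by_cases hy2 : x % 2 = 0
          · exact ⟨x + 1, by omega, by omega, by omega⟩
          · exact ⟨x + 2, by omega, by omega, by omega⟩
        have h3 := rung (f - 3) (by omega) (by omega) (by omega) (by omega) (by omega) (by omega)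
        exact htrans _ _ _ (hR a (f - 3 + 5) (by omega) (by omega) han (by omega))
          (htrans _ _ _ (hsymm _ _ h3) (hL (f - 3) (by omega)))
    · have : a = n := by omega
      rw [this]; exact hrefl _

end Core

theorem tube_conn {n : ℕ} (hn : n % 2 = 0) (hn12 : 12 ≤ n) (X : Finset (Fin (n + 2)))
    (hX : X.card ≤ 2) : ((tube n).induce {v | v ∉ X}).Connected := by
  classical
  have hvx : ∀ v : Fin (n + 2), vx n v.val = v := by
    intro v; apply Fin.ext; exact vx_val v.isLt
  have hreach : ∀ u v : Fin (n + 2), ∀ (hu : u ∉ X) (hv : v ∉ X),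
      ((tube n).induce {v | v ∉ X}).Reachable ⟨u, hu⟩ ⟨v, hv⟩ := by
    intro u v hu hv
    obtain ⟨Y, hXY, hYu, hY⟩ := Finset.exists_subsuperset_card_eq
      (s := X) (t := Finset.univ \ {u, v}) (n := 2) (by
        intro z hz
        simp only [Finset.mem_sdiff, Finset.mem_univ, true_and, Finset.mem_insert,
          Finset.mem_singleton, not_or]
        exact ⟨fun h => hu (h ▸ hz), fun h => hv (h ▸ hz)⟩) hX (by
        have h1 : (Finset.univ \ {u, v} : Finset (Fin (n + 2))).card ≥
            (Finset.univ : Finset (Fin (n + 2))).card - ({u, v} : Finset (Fin (n + 2))).card :=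
          Finset.le_card_sdiff _ _
        have h2 : ({u, v} : Finset (Fin (n + 2))).card ≤ 2 := Finset.card_le_two
        simp only [Finset.card_univ, Fintype.card_fin] at h1
        omega)
    rw [Finset.card_eq_two] at hY
    obtain ⟨x', y', hxy', rfl⟩ := hY
    have key : ∀ x y : Fin (n + 2), x.val < y.val → X ⊆ {x, y} → u ≠ x → u ≠ y → v ≠ x → v ≠ y →
        ((tube n).induce {v | v ∉ X}).Reachable ⟨u, hu⟩ ⟨v, hv⟩ := by
      intro x y hlt hsub h1 h2 h3 h4
      have hne : ∀ a : ℕ, a < n + 2 → a ≠ x.val → a ≠ y.val → vx n a ∉ X := by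
        intro a ha hax hay hmem
        have := hsub hmem
        simp only [Finset.mem_insert, Finset.mem_singleton] at this
        rcases this with h | h
        · apply hax; rw [← h, vx_val ha]
        · apply hay; rw [← h, vx_val ha]
      have := conn_core (n := n) (x := x.val) (y := y.val)
        (C := fun a b => a = b ∨ ∃ (ha : vx n a ∉ X) (hb : vx n b ∉ X),
          ((tube n).induce {v | v ∉ X}).Reachable ⟨vx n a, ha⟩ ⟨vx n b, hb⟩)
        hn hn12 hlt y.isLt (fun a => Or.inl rfl)
        (by
          rintro a b (h | ⟨ha, hb, h⟩)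
          · exact Or.inl h.symm
          · exact Or.inr ⟨hb, ha, h.symm⟩)
        (by
          rintro a b c (h | ⟨ha, hb, h⟩) (h' | ⟨hb', hc, h'⟩)
          · exact Or.inl (h.trans h')
          · rw [h]; exact Or.inr ⟨hb', hc, h'⟩
          · rw [← h']; exact Or.inr ⟨ha, hb, h⟩
          · exact Or.inr ⟨ha, hc, h.trans h'⟩)
        (by
          intro a b ha hb hax hay hbx hby hrel
          right
          refine ⟨hne a ha hax hay, hne b hb hbx hby, ?_⟩
          apply SimpleGraph.Adj.reachable
          simp only [SimpleGraph.comap_adj, Function.Embedding.subtype_apply]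
          exact tube_adj_vx ha hb (by have := tubeRel_lt (by omega) hrel; omega) (Or.inl hrel))
        u.val v.val u.isLt v.isLt (fun h => h1 (Fin.ext h)) (fun h => h2 (Fin.ext h))
        (fun h => h3 (Fin.ext h)) (fun h => h4 (Fin.ext h))
      rcases this with h | ⟨ha, hb, h⟩
      · have : u = v := Fin.ext h
        subst this
        exact SimpleGraph.Reachable.refl _
      · have e1 : (⟨vx n u.val, ha⟩ : {v | v ∉ X}) = ⟨u, hu⟩ := Subtype.ext (hvx u)
        have e2 : (⟨vx n v.val, hb⟩ : {v | v ∉ X}) = ⟨v, hv⟩ := Subtype.ext (hvx v)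
        rw [e1, e2] at h
        exact h
    have hnot : ∀ z ∈ ({x', y'} : Finset (Fin (n + 2))), u ≠ z ∧ v ≠ z := by
      intro z hz
      have := hYu hz
      simp only [Finset.mem_sdiff, Finset.mem_univ, true_and, Finset.mem_insert,
          Finset.mem_singleton, not_or] at this
      exact ⟨fun h => this.1 h.symm, fun h => this.2 h.symm⟩
    have hx' := hnot x' (by simp)
    have hy' := hnot y' (by simp)
    rcases lt_trichotomy x'.val y'.val with h | h | h
    · exact key x' y' h hXY hx'.1 hy'.1 hx'.2 hy'.2
    · exact absurd (Fin.ext h) hxy'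
    · exact key y' x' h (by rwa [Finset.pair_comm]) hy'.1 hx'.1 hy'.2 hx'.2
  have hne : ∃ v : Fin (n + 2), v ∉ X := by
    by_contra hcon
    push Not at hcon
    have : X = Finset.univ := Finset.eq_univ_of_forall hcon
    rw [this] at hX
    simp at hX
    omega
  obtain ⟨v0, hv0⟩ := hne
  haveI : Nonempty {v | v ∉ X} := ⟨⟨v0, hv0⟩⟩
  exact ⟨fun a b => hreach a.1 b.1 a.2 b.2⟩

end Pool.Agent.Lib.MP_0ea5e1_co
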