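import Pool.Agent.Lib.MP_0ea5e1_co.Separate

/-!
The upper bound for `fix` of the helical tube.
-/

open Set

namespace Pool.Agent.Lib.MP_0ea5e1_co

/-- position of a vertex on the line -/
def pos (n L v : ℕ) : ℕ := (v % L) * (n + 2) + v / L

/-- the bad drawing: all vertices on a line -/
def badDrawing (n L : ℕ) (v : Fin (n + 2)) : ℝ × ℝ := (((pos n L v.val : ℕ) : ℝ), (0 : ℝ))

lemma div_lt_aux {n L v : ℕ} (hv : v < n + 2) : v / L < n + 2 :=
  lt_of_le_of_lt (Nat.div_le_self v L) hv

lemma lex_aux {M a b q r : ℕ} (hr : r < M) (h : a * M + q < b * M + r) (hba : b < a) :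
    False := by
  have h5 : (b + 1) * M ≤ a * M := Nat.mul_le_mul_right _ hba
  have h6 : (b + 1) * M = b * M + M := by ring
  omega

lemma pos_lt {n L v w : ℕ} (_hv : v < n + 2) (hw : w < n + 2) (h : pos n L v < pos n L w) :
    v % L < w % L ∨ (v % L = w % L ∧ v / L < w / L) := by
  unfold pos at h
  have h2 := div_lt_aux (L := L) hw
  rcases lt_trichotomy (v % L) (w % L) with h3 | h3 | h3
  · exact Or.inl h3
  · right
    refine ⟨h3, ?_⟩
    rw [h3] at h
    exact Nat.lt_of_add_lt_add_left h
  · exact absurd h3 (fun h3 => lex_aux h2 h h3)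

lemma pos_inj {n L v w : ℕ} (hv : v < n + 2) (hw : w < n + 2) (h : pos n L v = pos n L w) :
    v = w := by
  unfold pos at h
  have h1 := div_lt_aux (L := L) hv
  have h2 := div_lt_aux (L := L) hw
  have aux : ∀ {a b q r : ℕ}, q < n + 2 → a * (n + 2) + q = b * (n + 2) + r → a < b → False := by
    intro a b q r hq h hab
    have h5 : (a + 1) * (n + 2) ≤ b * (n + 2) := Nat.mul_le_mul_right _ hab
    have h6 : (a + 1) * (n + 2) = a * (n + 2) + (n + 2) := by ring
    omega
  have h3 : v % L = w % L := by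
    rcases lt_trichotomy (v % L) (w % L) with h3 | h3 | h3
    · exact absurd h3 (fun h3 => aux h1 h h3)
    · exact h3
    · exact absurd h3 (fun h3 => aux h2 h.symm h3)
  rw [h3] at h
  have h4 : v / L = w / L := Nat.add_left_cancel h
  rw [← Nat.div_add_mod v L, ← Nat.div_add_mod w L, h3, h4]

lemma badDrawing_injective (n L : ℕ) : Function.Injective (badDrawing n L) := by
  intro v w h
  unfold badDrawing at h
  have h1 : ((pos n L v.val : ℕ) : ℝ) = (pos n L w.val : ℕ) := (Prod.mk.injEq _ _ _ _ ▸ h).1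
  exact Fin.ext (pos_inj v.isLt w.isLt (by exact_mod_cast h1))

/-- a vertex which is not an endpoint of an edge does not lie on the closed edge -/
lemma not_mem_edge {V : Type*} {G : SimpleGraph V} {δ : V → ℝ × ℝ} (h : IsPlane G δ)
    {a b v : V} (hab : G.Adj a b) (ha : v ≠ a) (hb : v ≠ b) : δ v ∉ segment ℝ (δ a) (δ b) := by
  intro hv
  have h1 := h.2.2 a b v hab
  rw [← insert_endpoints_openSegment] at hv
  simp only [Set.mem_insert_iff] at hv
  rcases hv with h2 | h2 | h2
  · exact ha (h.1 h2)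
  · exact hb (h.1 h2)
  · exact h1 h2

/-- points of a horizontal segment -/
lemma mem_horizontal {x y : ℝ} (hxy : x ≤ y) {z : ℝ × ℝ}
    (h : z ∈ segment ℝ ((x, 0) : ℝ × ℝ) (y, 0)) : z.2 = 0 ∧ x ≤ z.1 ∧ z.1 ≤ y := by
  obtain ⟨s, t, hs, ht, hst, rfl⟩ := h
  refine ⟨by simp, ?_, ?_⟩
  · simp only [Prod.fst_add, Prod.smul_fst, smul_eq_mul]
    have : s = 1 - t := by linarith
    subst this
    nlinarith
  · simp only [Prod.fst_add, Prod.smul_fst, smul_eq_mul]
    have : t = 1 - s := by linarith
    subst this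
    nlinarith

lemma horizontal_mem {x y z : ℝ} {A : Set (ℝ × ℝ)} (hA : Convex ℝ A)
    (hx : ((x, 0) : ℝ × ℝ) ∈ A) (hy : ((y, 0) : ℝ × ℝ) ∈ A) (h1 : x ≤ z) (h2 : z ≤ y) :
    ((z, 0) : ℝ × ℝ) ∈ A := by
  rcases eq_or_lt_of_le (h1.trans h2) with h3 | h3
  · have : z = x := le_antisymm (by linarith) h1
    rw [this]; exact hx
  · apply hA.segment_subset hx hy
    refine ⟨(y - z) / (y - x), (z - x) / (y - x), div_nonneg (by linarith) (by linarith),
      div_nonneg (by linarith) (by linarith), ?_, ?_⟩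
    · rw [← add_div, show y - z + (z - x) = y - x by ring, div_self (by linarith)]
    · ext
      · simp only [Prod.fst_add, Prod.smul_fst, smul_eq_mul]
        have : y - x ≠ 0 := by linarith
        field_simp
        ring
      · simp

/-- edge `m` of the hexagon based at `g * L` -/
def hexEdge (n L : ℕ) (δ : Fin (n + 2) → ℝ × ℝ) (g : ℕ) (m : Fin 6) : Set (ℝ × ℝ) :=
  segment ℝ (δ (vx n (g * L + m.val))) (δ (vx n (g * L + (m.val + 1) % 6)))

open Classical in
/-- the set of hexagon edges meeting the axis to the left of `x` -/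
noncomputable def leftSet (n L : ℕ) (δ : Fin (n + 2) → ℝ × ℝ) (g : ℕ) (x : ℝ) : Finset (Fin 6) :=
  Finset.univ.filter (fun m => ∃ y : ℝ, y < x ∧ ((y, 0) : ℝ × ℝ) ∈ hexEdge n L δ g m)

lemma leftSet_mono {n L : ℕ} {δ : Fin (n + 2) → ℝ × ℝ} {g : ℕ} {x y : ℝ} (h : x ≤ y) :
    leftSet n L δ g x ⊆ leftSet n L δ g y := by
  intro m hm
  unfold leftSet at hm ⊢
  simp only [Finset.mem_filter, Finset.mem_univ, true_and] at hm ⊢
  obtain ⟨z, hz, hz'⟩ := hm
  exact ⟨z, by linarith, hz'⟩

/-- the potential -/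
noncomputable def pot (n L : ℕ) (δ : Fin (n + 2) → ℝ × ℝ) (v : ℕ) : ℕ :=
  v % L + ∑ g ∈ Finset.Icc 1 (n / L), (leftSet n L δ g (pos n L v : ℕ)).card

lemma pot_lt {n L : ℕ} {δ : Fin (n + 2) → ℝ × ℝ} (hδ : IsPlane (tube n) δ) (hL : L % 2 = 0)
    (hL10 : 10 ≤ L) {v w : ℕ} (hv : v < n) (hw : w < n) (hvL : 10 ≤ v % L) (hwL : 10 ≤ w % L)
    (hδv : δ (vx n v) = (((pos n L v : ℕ) : ℝ), (0 : ℝ)))
    (hδw : δ (vx n w) = (((pos n L w : ℕ) : ℝ), (0 : ℝ)))
    (h : pos n L v < pos n L w) : pot n L δ v < pot n L δ w := by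
  have hcast : ((pos n L v : ℕ) : ℝ) < (pos n L w : ℕ) := by exact_mod_cast h
  have hmono : ∑ g ∈ Finset.Icc 1 (n / L), (leftSet n L δ g (pos n L v : ℕ)).card ≤
      ∑ g ∈ Finset.Icc 1 (n / L), (leftSet n L δ g (pos n L w : ℕ)).card :=
    Finset.sum_le_sum (fun g _ => Finset.card_le_card (leftSet_mono hcast.le))
  rcases pos_lt (by omega) (by omega) h with h1 | ⟨h1, h2⟩
  · unfold pot
    omega
  · -- same residue, different groups
    have hLpos : 0 < L := by omega
    have hgn : w / L ≤ n / L := Nat.div_le_div_right hw.le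
    have hg1 : 1 ≤ w / L := by
      have := Nat.zero_le (v / L)
      exact Nat.succ_le_of_lt (lt_of_le_of_lt this h2)
    have hvg : v < (w / L) * L := Nat.lt_mul_of_div_lt h2 hLpos
    have hwg : (w / L) * L + 10 ≤ w := by
      have h3 := Nat.div_add_mod w L
      rw [Nat.mul_comm] at h3
      calc (w / L) * L + 10 ≤ (w / L) * L + w % L := Nat.add_le_add_left hwL _
        _ = w := h3
    generalize w / L = g at hgn hg1 hvg hwg
    have hgL : L ≤ g * L := Nat.le_mul_of_pos_left L hg1
    have hgeven : (g * L) % 2 = 0 := by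
      rw [Nat.mul_mod, hL]; simp
    obtain ⟨m, x, hx1, hx2⟩ := separate hδ (i := g * L) hgeven (by omega) (by omega)
      (a := w) (b := v) hvg (by omega) hw
    have hm := m.isLt
    rw [hδv, hδw] at hx1
    obtain ⟨hx0, hxv, hxw⟩ := mem_horizontal hcast.le hx1
    have hxeq : x = (x.1, 0) := by ext <;> simp [hx0]
    have hadj : (tube n).Adj (vx n (g * L + m.val)) (vx n (g * L + (m.val + 1) % 6)) := by
      apply tube_adj_vx (by omega) (by omega) (by omega)
      unfold tubeRel
      omega
    have hnv : δ (vx n v) ∉ hexEdge n L δ g m :=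
      not_mem_edge hδ hadj (vx_ne (by omega) (by omega) (by omega))
        (vx_ne (by omega) (by omega) (by omega))
    have hnw : δ (vx n w) ∉ hexEdge n L δ g m :=
      not_mem_edge hδ hadj (vx_ne (by omega) (by omega) (by omega))
        (vx_ne (by omega) (by omega) (by omega))
    have hx2' : ((x.1, 0) : ℝ × ℝ) ∈ hexEdge n L δ g m := by
      rw [← hxeq]; exact hx2
    rw [hδv] at hnv
    rw [hδw] at hnw
    have hlt : x.1 < (pos n L w : ℕ) := by
      rcases eq_or_lt_of_le hxw with h3 | h3
      · exfalso; rw [h3] at hx2'; exact hnw hx2'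
      · exact h3
    have hmem : m ∈ leftSet n L δ g (pos n L w : ℕ) := by
      unfold leftSet
      simp only [Finset.mem_filter, Finset.mem_univ, true_and]
      exact ⟨x.1, hlt, hx2'⟩
    have hnmem : m ∉ leftSet n L δ g (pos n L v : ℕ) := by
      unfold leftSet
      simp only [Finset.mem_filter, Finset.mem_univ, true_and]
      rintro ⟨y, hy, hy'⟩
      exact hnv (horizontal_mem (convex_segment _ _) hy' hx2' hy.le hxv)
    have hstrict : ∑ g ∈ Finset.Icc 1 (n / L), (leftSet n L δ g (pos n L v : ℕ)).card <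
        ∑ g ∈ Finset.Icc 1 (n / L), (leftSet n L δ g (pos n L w : ℕ)).card := by
      apply Finset.sum_lt_sum (fun g _ => Finset.card_le_card (leftSet_mono hcast.le))
      refine ⟨g, Finset.mem_Icc.mpr ⟨hg1, hgn⟩, Finset.card_lt_card ?_⟩
      refine ⟨leftSet_mono hcast.le, fun hsub => hnmem (hsub hmem)⟩
    unfold pot
    omega

lemma pot_bound {n L : ℕ} {δ : Fin (n + 2) → ℝ × ℝ} (hL : 0 < L) (v : ℕ) :
    pot n L δ v < L + 6 * (n / L) := by
  unfold pot
  have h1 : v % L < L := Nat.mod_lt _ hL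
  have h2 : ∑ g ∈ Finset.Icc 1 (n / L), (leftSet n L δ g (pos n L v : ℕ)).card ≤
      ∑ _g ∈ Finset.Icc 1 (n / L), 6 := by
    apply Finset.sum_le_sum
    intro g _
    exact (Finset.card_le_univ _).trans (by simp)
  have h3 : ∑ _g ∈ Finset.Icc 1 (n / L), 6 = 6 * (n / L) := by
    simp [Nat.mul_comm]
  omega

/-- The counting bound. -/
lemma card_bound {n L : ℕ} {δ : Fin (n + 2) → ℝ × ℝ} (hδ : IsPlane (tube n) δ)
    (hL : L % 2 = 0) (hL10 : 10 ≤ L) (S : Finset (Fin (n + 2)))
    (hS : ∀ v ∈ S, δ v = badDrawing n L v) : S.card ≤ L + 16 * (n / L) + 12 := by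
  classical
  have hvx : ∀ v : Fin (n + 2), vx n v.val = v := by
    intro v; apply Fin.ext; exact vx_val v.isLt
  set S1 := S.filter (fun v => v.val < n ∧ 10 ≤ v.val % L) with hS1
  set S2 := S.filter (fun v => ¬ (v.val < n ∧ 10 ≤ v.val % L)) with hS2
  have hsplit : S.card = S1.card + S2.card := by
    rw [hS1, hS2, Finset.card_filter_add_card_filter_not]
  -- S1
  have h1 : S1.card ≤ L + 6 * (n / L) := by
    have : S1.card ≤ (Finset.range (L + 6 * (n / L))).card := by
      apply Finset.card_le_card_of_injOn (fun v => pot n L δ v.val)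
      · intro v _
        simp only [Finset.coe_range, Set.mem_Iio]
        exact pot_bound (by omega) _
      · intro v hv w hw hvw
        simp only [hS1, Finset.coe_filter, Set.mem_ofPred_eq] at hv hw
        have dv := hS v hv.1
        have dw := hS w hw.1
        rw [← hvx v] at dv
        rw [← hvx w] at dw
        have ev : badDrawing n L (vx n v.val) = (((pos n L v.val : ℕ) : ℝ), (0 : ℝ)) := by
          rw [hvx]; rfl
        have ew : badDrawing n L (vx n w.val) = (((pos n L w.val : ℕ) : ℝ), (0 : ℝ)) := by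
          rw [hvx]; rfl
        rw [ev] at dv
        rw [ew] at dw
        rcases lt_trichotomy (pos n L v.val) (pos n L w.val) with h | h | h
        · have := pot_lt hδ hL hL10 hv.2.1 hw.2.1 hv.2.2 hw.2.2 dv dw h
          simp only at hvw
          omega
        · exact Fin.ext (pos_inj v.isLt w.isLt h)
        · have := pot_lt hδ hL hL10 hw.2.1 hv.2.1 hw.2.2 hv.2.2 dw dv h
          simp only at hvw
          omega
    simpa using this
  -- S2
  have h2 : S2.card ≤ 10 * (n / L + 1) + 2 := by
    have hsub : S2 ⊆ (Finset.univ.filter (fun v : Fin (n + 2) => v.val < n ∧ v.val % L < 10)) ∪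
        (Finset.univ.filter (fun v : Fin (n + 2) => n ≤ v.val)) := by
      intro v hv
      simp only [hS2, Finset.mem_filter] at hv
      simp only [Finset.mem_union, Finset.mem_filter, Finset.mem_univ, true_and]
      omega
    have c1 : (Finset.univ.filter (fun v : Fin (n + 2) => v.val < n ∧ v.val % L < 10)).card ≤
        10 * (n / L + 1) := by
      have : (Finset.univ.filter (fun v : Fin (n + 2) => v.val < n ∧ v.val % L < 10)).card ≤
          ((Finset.range 10) ×ˢ (Finset.range (n / L + 1))).card := by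
        apply Finset.card_le_card_of_injOn (fun v => (v.val % L, v.val / L))
        · intro v hv
          simp only [Finset.coe_filter, Finset.mem_univ, true_and, Set.mem_ofPred_eq] at hv
          simp only [Finset.coe_product, Finset.coe_range, Set.mem_prod, Set.mem_Iio]
          refine ⟨hv.2, ?_⟩
          have := Nat.div_le_div_right (c := L) hv.1.le
          omega
        · intro v _ w _ hvw
          simp only [Prod.mk.injEq] at hvw
          apply Fin.ext
          rw [← Nat.div_add_mod v.val L, ← Nat.div_add_mod w.val L, hvw.1, hvw.2]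
      simpa using this
    have c2 : (Finset.univ.filter (fun v : Fin (n + 2) => n ≤ v.val)).card ≤ 2 := by
      have : (Finset.univ.filter (fun v : Fin (n + 2) => n ≤ v.val)).card ≤
          (Finset.range 2).card := by
        apply Finset.card_le_card_of_injOn (fun v => v.val - n)
        · intro v hv
          simp only [Finset.coe_filter, Finset.mem_univ, true_and, Set.mem_ofPred_eq] at hv
          simp only [Finset.coe_range, Set.mem_Iio]
          have := v.isLt
          omega
        · intro v hv w hw hvw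
          simp only [Finset.coe_filter, Finset.mem_univ, true_and, Set.mem_ofPred_eq] at hv hw
          simp only at hvw
          apply Fin.ext
          omega
      simpa using this
    calc S2.card ≤ _ := Finset.card_le_card hsub
      _ ≤ _ := Finset.card_union_le _ _
      _ ≤ 10 * (n / L + 1) + 2 := by omega
  omega

/-- The upper bound for the tube. -/
theorem fix_tube_le {n L : ℕ} (hL : L % 2 = 0) (hL10 : 10 ≤ L) :
    fixNum (tube n) ≤ L + 16 * (n / L) + 12 := by
  have h1 : fixNum (tube n) ≤ fixAt (tube n) (badDrawing n L) :=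
    Nat.sInf_le ⟨badDrawing n L, badDrawing_injective n L, rfl⟩
  have h2 : fixAt (tube n) (badDrawing n L) ≤ L + 16 * (n / L) + 12 := by
    apply csSup_le'
    rintro k ⟨δ, hδ, S, rfl, hS⟩
    exact card_bound hδ hL hL10 S hS
  exact h1.trans h2

theorem fix_tube_sqrt {n : ℕ} (hn : 16 ≤ n) : (fixNum (tube n) : ℝ) ≤ 30 * Real.sqrt n := by
  set s := Nat.sqrt n with hs
  have hs4 : 4 ≤ s := by
    rw [hs]; exact Nat.le_sqrt.mpr (by omega)
  have hns : n < (s + 1) * (s + 1) := Nat.lt_succ_sqrt n
  have h := fix_tube_le (n := n) (L := 2 * (s + 1)) (by omega) (by omega)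
  have hdiv : n / (2 * (s + 1)) ≤ (s + 1) / 2 := by
    have h1 : n / (2 * (s + 1)) ≤ ((s + 1) * (s + 1)) / (2 * (s + 1)) := Nat.div_le_div_right hns.le
    have h2 : ((s + 1) * (s + 1)) / (2 * (s + 1)) = (s + 1) / 2 := by
      exact Nat.mul_div_mul_right _ _ (by omega)
    omega
  have h2 : fixNum (tube n) ≤ 2 * (s + 1) + 8 * (s + 1) + 12 := by omega
  have h3 : fixNum (tube n) ≤ 16 * s := by omega
  have h4 : (s : ℝ) ≤ Real.sqrt n := Real.nat_sqrt_le_real_sqrt
  have h5 : (fixNum (tube n) : ℝ) ≤ 16 * s := by exact_mod_cast h3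
  have h6 : 0 ≤ Real.sqrt n := Real.sqrt_nonneg _
  linarith

end Pool.Agent.Lib.MP_0ea5e1_co
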