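import Mathlib

/-!
Definitions for MP_0ea5e1_co: untangling of straight-line drawings.
-/

namespace Pool.Agent.Lib.MP_0ea5e1_co

/-- `δ` is a plane straight-line drawing of `G`: it is injective, two different edges (closed
segments) meet only in the image of a common endpoint, and no vertex lies in the interior of
an edge. -/
def IsPlane {V : Type*} (G : SimpleGraph V) (δ : V → ℝ × ℝ) : Prop :=
  Function.Injective δ ∧
  (∀ a b c d : V, G.Adj a b → G.Adj c d → s(a, b) ≠ s(c, d) →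
    ∀ x, x ∈ segment ℝ (δ a) (δ b) → x ∈ segment ℝ (δ c) (δ d) →
      ∃ v, v ∈ s(a, b) ∧ v ∈ s(c, d) ∧ δ v = x) ∧
  (∀ a b v : V, G.Adj a b → δ v ∉ openSegment ℝ (δ a) (δ b))

/-- `fix(G, δ)`: the largest `k` such that some plane straight-line drawing of `G` agrees with
`δ` on a set of `k` vertices. -/
noncomputable def fixAt {V : Type*} (G : SimpleGraph V) (δ : V → ℝ × ℝ) : ℕ :=
  sSup {k : ℕ | ∃ δ' : V → ℝ × ℝ, IsPlane G δ' ∧ ∃ S : Finset V, S.card = k ∧
    ∀ v ∈ S, δ' v = δ v}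

/-- `fix(G)`: the minimum of `fix(G, δ)` over all straight-line drawings `δ` of `G`
(injective maps of the vertices into the plane; crossings are allowed). -/
noncomputable def fixNum {V : Type*} (G : SimpleGraph V) : ℕ :=
  sInf {k : ℕ | ∃ δ : V → ℝ × ℝ, Function.Injective δ ∧ fixAt G δ = k}

/-- `G` is cubic, 3-connected and planar. -/
def InClass {V : Type*} [Fintype V] (G : SimpleGraph V) : Prop :=
  (∀ v, (G.neighborSet v).ncard = 3) ∧
  (4 ≤ Fintype.card V ∧ ∀ X : Finset V, X.card ≤ 2 → (G.induce {v | v ∉ X}).Connected) ∧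
  (∃ δ : V → ℝ × ℝ, IsPlane G δ)

/-- `fix_C(n)`: the minimum of `fix(G)` over the cubic 3-connected planar graphs on `n`
vertices. -/
noncomputable def fixC (n : ℕ) : ℕ :=
  sInf {k : ℕ | ∃ G : SimpleGraph (Fin n), InClass G ∧ fixNum G = k}

/-- Adjacency (in increasing order) of the helical tube on the vertices `0, ..., n + 1`:
a path `0, ..., n - 1`, rungs `{i, i + 5}` for `i` even, and two caps `n` and `n + 1`. -/
def tubeRel (n a b : ℕ) : Prop :=
  (b = a + 1 ∧ b < n) ∨ (b = a + 5 ∧ a % 2 = 0 ∧ b < n) ∨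
  (b = n ∧ (a = 0 ∨ a = 1 ∨ a = 3)) ∨ (b = n + 1 ∧ (a + 4 = n ∨ a + 2 = n ∨ a + 1 = n))

lemma tubeRel_lt {n a b : ℕ} (hn : 4 ≤ n) (h : tubeRel n a b) : a < b := by
  unfold tubeRel at h; omega

/-- The helical tube. -/
def tube (n : ℕ) : SimpleGraph (Fin (n + 2)) where
  Adj a b := a ≠ b ∧ (tubeRel n a b ∨ tubeRel n b a)
  symm := ⟨by
    intro a b h
    exact ⟨h.1.symm, h.2.symm⟩⟩
  loopless := ⟨by
    intro a h
    exact h.1 rfl⟩

end Pool.Agent.Lib.MP_0ea5e1_co
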