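import Pool.Agent.Lib.MP_0ea5e1_co.Parity

/-!
The hexagon lemma on fourteen points.
-/

namespace Pool.Agent.Lib.MP_0ea5e1_co

/-- adjacency of the helical tube on the fourteen vertices around a hexagon -/
def adj14 (a b : Fin 14) : Bool :=
  (a.val + 1 == b.val) || (b.val + 1 == a.val) ||
  ((a.val + 5 == b.val) && (a.val % 2 == 0)) || ((b.val + 5 == a.val) && (b.val % 2 == 0))

/-- The hexagon `4,...,9` separates `2` from `11` (parity form). -/
lemma hex14 {p : Fin 14 → ℝ × ℝ} (hp : GenPos p)
    (hE : ∀ a b c d : Fin 14, adj14 a b = true → adj14 c d = true → a ≠ c → a ≠ d → b ≠ c →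
      b ≠ d → X p a b c d = 0) :
    XW p 2 11 4 [5, 6, 7, 8, 9, 4] = 1 := by
  have A0 : XW p 11 12 5 [6, 7, 2, 1, 0, 5] = 0 := by
    simp only [XW]
    rw [hE 11 12 5 6 rfl rfl (by decide) (by decide) (by decide) (by decide),
      hE 11 12 6 7 rfl rfl (by decide) (by decide) (by decide) (by decide),
      hE 11 12 7 2 rfl rfl (by decide) (by decide) (by decide) (by decide),
      hE 11 12 2 1 rfl rfl (by decide) (by decide) (by decide) (by decide),
      hE 11 12 1 0 rfl rfl (by decide) (by decide) (by decide) (by decide),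
      hE 11 12 0 5 rfl rfl (by decide) (by decide) (by decide) (by decide)] <;> ring
  have A1 : XW p 12 13 5 [6, 7, 2, 1, 0, 5] = 0 := by
    simp only [XW]
    rw [hE 12 13 5 6 rfl rfl (by decide) (by decide) (by decide) (by decide),
      hE 12 13 6 7 rfl rfl (by decide) (by decide) (by decide) (by decide),
      hE 12 13 7 2 rfl rfl (by decide) (by decide) (by decide) (by decide),
      hE 12 13 2 1 rfl rfl (by decide) (by decide) (by decide) (by decide),
      hE 12 13 1 0 rfl rfl (by decide) (by decide) (by decide) (by decide),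
      hE 12 13 0 5 rfl rfl (by decide) (by decide) (by decide) (by decide)] <;> ring
  have A2 : XW p 13 8 5 [6, 7, 2, 1, 0, 5] = 0 := by
    simp only [XW]
    rw [hE 13 8 5 6 rfl rfl (by decide) (by decide) (by decide) (by decide),
      hE 13 8 6 7 rfl rfl (by decide) (by decide) (by decide) (by decide),
      hE 13 8 7 2 rfl rfl (by decide) (by decide) (by decide) (by decide),
      hE 13 8 2 1 rfl rfl (by decide) (by decide) (by decide) (by decide),
      hE 13 8 1 0 rfl rfl (by decide) (by decide) (by decide) (by decide),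
      hE 13 8 0 5 rfl rfl (by decide) (by decide) (by decide) (by decide)] <;> ring
  have Ac1 := XW_closed hp (a := 11) (b := 12) (c := 13) [6, 7, 2, 1, 0, 5] 5 (by decide) (by rfl)
  have Ac2 := XW_closed hp (a := 11) (b := 13) (c := 8) [6, 7, 2, 1, 0, 5] 5 (by decide) (by rfl)
  have A : XW p 11 8 5 [6, 7, 2, 1, 0, 5] = 0 := by
    rw [← Ac2, ← Ac1, A0, A1, A2] <;> ring
  have B0 : XW p 5 4 11 [6, 7, 2, 11] = X p 5 4 2 11 := by
    simp only [XW]
    rw [hE 5 4 11 6 rfl rfl (by decide) (by decide) (by decide) (by decide),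
      hE 5 4 6 7 rfl rfl (by decide) (by decide) (by decide) (by decide),
      hE 5 4 7 2 rfl rfl (by decide) (by decide) (by decide) (by decide)] <;> ring
  have B1 : XW p 4 9 11 [6, 7, 2, 11] = X p 4 9 2 11 := by
    simp only [XW]
    rw [hE 4 9 11 6 rfl rfl (by decide) (by decide) (by decide) (by decide),
      hE 4 9 6 7 rfl rfl (by decide) (by decide) (by decide) (by decide),
      hE 4 9 7 2 rfl rfl (by decide) (by decide) (by decide) (by decide)] <;> ring
  have B2 : XW p 9 8 11 [6, 7, 2, 11] = X p 9 8 2 11 := by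
    simp only [XW]
    rw [hE 9 8 11 6 rfl rfl (by decide) (by decide) (by decide) (by decide),
      hE 9 8 6 7 rfl rfl (by decide) (by decide) (by decide) (by decide),
      hE 9 8 7 2 rfl rfl (by decide) (by decide) (by decide) (by decide)] <;> ring
  have Bc1 := XW_closed hp (a := 5) (b := 4) (c := 9) [6, 7, 2, 11] 11 (by decide) (by rfl)
  have Bc2 := XW_closed hp (a := 5) (b := 9) (c := 8) [6, 7, 2, 11] 11 (by decide) (by rfl)
  have B : XW p 5 8 11 [6, 7, 2, 11] = X p 5 4 2 11 + X p 4 9 2 11 + X p 9 8 2 11 := by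
    rw [← Bc2, ← Bc1, B0, B1, B2] <;> ring
  have C0 : XW p 2 1 11 [8, 7, 6, 11] = X p 2 1 11 8 := by
    simp only [XW]
    rw [hE 2 1 8 7 rfl rfl (by decide) (by decide) (by decide) (by decide),
      hE 2 1 7 6 rfl rfl (by decide) (by decide) (by decide) (by decide),
      hE 2 1 6 11 rfl rfl (by decide) (by decide) (by decide) (by decide)] <;> ring
  have C1 : XW p 1 0 11 [8, 7, 6, 11] = X p 1 0 11 8 := by
    simp only [XW]
    rw [hE 1 0 8 7 rfl rfl (by decide) (by decide) (by decide) (by decide),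
      hE 1 0 7 6 rfl rfl (by decide) (by decide) (by decide) (by decide),
      hE 1 0 6 11 rfl rfl (by decide) (by decide) (by decide) (by decide)] <;> ring
  have C2 : XW p 0 5 11 [8, 7, 6, 11] = X p 0 5 11 8 := by
    simp only [XW]
    rw [hE 0 5 8 7 rfl rfl (by decide) (by decide) (by decide) (by decide),
      hE 0 5 7 6 rfl rfl (by decide) (by decide) (by decide) (by decide),
      hE 0 5 6 11 rfl rfl (by decide) (by decide) (by decide) (by decide)] <;> ring
  have Cc1 := XW_closed hp (a := 2) (b := 1) (c := 0) [8, 7, 6, 11] 11 (by decide) (by rfl)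
  have Cc2 := XW_closed hp (a := 2) (b := 0) (c := 5) [8, 7, 6, 11] 11 (by decide) (by rfl)
  have C : XW p 2 5 11 [8, 7, 6, 11] = X p 2 1 11 8 + X p 1 0 11 8 + X p 0 5 11 8 := by
    rw [← Cc2, ← Cc1, C0, C1, C2] <;> ring
  simp only [XW] at A B C ⊢
  have K := K33 hp (a1 := 11) (a2 := 5) (a3 := 7) (b1 := 8) (b2 := 6) (b3 := 2)
    (by decide) (by decide) (by decide) (by decide) (by decide) (by decide) (by decide) (by decide) (by decide) (by decide) (by decide) (by decide) (by decide) (by decide) (by decide)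
  have e0_5_11_8 : X p 0 5 11 8 = X p 0 5 8 11 := by
    rw [X_swap_right hp (a := 0) (b := 5) (c := 8) (d := 11) (by decide) (by decide) (by decide) (by decide)]
  have e1_0_11_8 : X p 1 0 11 8 = X p 0 1 8 11 := by
    rw [X_swap_left hp (a := 0) (b := 1) (c := 11) (d := 8) (by decide) (by decide) (by decide) (by decide),
      X_swap_right hp (a := 0) (b := 1) (c := 8) (d := 11) (by decide) (by decide) (by decide) (by decide)]
  have e2_1_11_8 : X p 2 1 11 8 = X p 1 2 8 11 := by
    rw [X_swap_left hp (a := 1) (b := 2) (c := 11) (d := 8) (by decide) (by decide) (by decide) (by decide),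
      X_swap_right hp (a := 1) (b := 2) (c := 8) (d := 11) (by decide) (by decide) (by decide) (by decide)]
  have e2_5_7_6 : X p 2 5 7 6 = X p 2 5 6 7 := by
    rw [X_swap_right hp (a := 2) (b := 5) (c := 6) (d := 7) (by decide) (by decide) (by decide) (by decide)]
  have e2_5_8_7 : X p 2 5 8 7 = X p 2 5 7 8 := by
    rw [X_swap_right hp (a := 2) (b := 5) (c := 7) (d := 8) (by decide) (by decide) (by decide) (by decide)]
  have e2_5_11_8 : X p 2 5 11 8 = X p 2 5 8 11 := by
    rw [X_swap_right hp (a := 2) (b := 5) (c := 8) (d := 11) (by decide) (by decide) (by decide) (by decide)]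
  have e2_11_9_4 : X p 2 11 9 4 = X p 2 11 4 9 := by
    rw [X_swap_right hp (a := 2) (b := 11) (c := 4) (d := 9) (by decide) (by decide) (by decide) (by decide)]
  have e4_9_2_11 : X p 4 9 2 11 = X p 2 11 4 9 := by
    rw [X_comm (p := p) 4 9 2 11]
  have e5_2_7_6 : X p 5 2 7 6 = X p 2 5 6 7 := by
    rw [X_swap_left hp (a := 2) (b := 5) (c := 7) (d := 6) (by decide) (by decide) (by decide) (by decide),
      X_swap_right hp (a := 2) (b := 5) (c := 6) (d := 7) (by decide) (by decide) (by decide) (by decide)]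
  have e5_2_7_8 : X p 5 2 7 8 = X p 2 5 7 8 := by
    rw [X_swap_left hp (a := 2) (b := 5) (c := 7) (d := 8) (by decide) (by decide) (by decide) (by decide)]
  have e5_4_2_11 : X p 5 4 2 11 = X p 2 11 4 5 := by
    rw [X_swap_left hp (a := 4) (b := 5) (c := 2) (d := 11) (by decide) (by decide) (by decide) (by decide),
      X_comm (p := p) 4 5 2 11]
  have e5_6_7_2 : X p 5 6 7 2 = X p 2 7 5 6 := by
    rw [X_swap_right hp (a := 5) (b := 6) (c := 2) (d := 7) (by decide) (by decide) (by decide) (by decide),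
      X_comm (p := p) 5 6 2 7]
  have e5_8_2_11 : X p 5 8 2 11 = X p 2 11 5 8 := by
    rw [X_comm (p := p) 5 8 2 11]
  have e5_8_7_2 : X p 5 8 7 2 = X p 2 7 5 8 := by
    rw [X_swap_right hp (a := 5) (b := 8) (c := 2) (d := 7) (by decide) (by decide) (by decide) (by decide),
      X_comm (p := p) 5 8 2 7]
  have e5_8_7_6 : X p 5 8 7 6 = X p 5 8 6 7 := by
    rw [X_swap_right hp (a := 5) (b := 8) (c := 6) (d := 7) (by decide) (by decide) (by decide) (by decide)]
  have e5_8_11_6 : X p 5 8 11 6 = X p 5 8 6 11 := by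
    rw [X_swap_right hp (a := 5) (b := 8) (c := 6) (d := 11) (by decide) (by decide) (by decide) (by decide)]
  have e9_8_2_11 : X p 9 8 2 11 = X p 2 11 8 9 := by
    rw [X_swap_left hp (a := 8) (b := 9) (c := 2) (d := 11) (by decide) (by decide) (by decide) (by decide),
      X_comm (p := p) 8 9 2 11]
  have e11_2_5_6 : X p 11 2 5 6 = X p 2 11 5 6 := by
    rw [X_swap_left hp (a := 2) (b := 11) (c := 5) (d := 6) (by decide) (by decide) (by decide) (by decide)]
  have e11_2_5_8 : X p 11 2 5 8 = X p 2 11 5 8 := by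
    rw [X_swap_left hp (a := 2) (b := 11) (c := 5) (d := 8) (by decide) (by decide) (by decide) (by decide)]
  have e11_2_7_6 : X p 11 2 7 6 = X p 2 11 6 7 := by
    rw [X_swap_left hp (a := 2) (b := 11) (c := 7) (d := 6) (by decide) (by decide) (by decide) (by decide),
      X_swap_right hp (a := 2) (b := 11) (c := 6) (d := 7) (by decide) (by decide) (by decide) (by decide)]
  have e11_2_7_8 : X p 11 2 7 8 = X p 2 11 7 8 := by
    rw [X_swap_left hp (a := 2) (b := 11) (c := 7) (d := 8) (by decide) (by decide) (by decide) (by decide)]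
  have e11_6_5_2 : X p 11 6 5 2 = X p 2 5 6 11 := by
    rw [X_swap_left hp (a := 6) (b := 11) (c := 5) (d := 2) (by decide) (by decide) (by decide) (by decide),
      X_swap_right hp (a := 6) (b := 11) (c := 2) (d := 5) (by decide) (by decide) (by decide) (by decide),
      X_comm (p := p) 6 11 2 5]
  have e11_6_5_8 : X p 11 6 5 8 = X p 5 8 6 11 := by
    rw [X_swap_left hp (a := 6) (b := 11) (c := 5) (d := 8) (by decide) (by decide) (by decide) (by decide),
      X_comm (p := p) 6 11 5 8]
  have e11_6_7_2 : X p 11 6 7 2 = X p 2 7 6 11 := by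
    rw [X_swap_left hp (a := 6) (b := 11) (c := 7) (d := 2) (by decide) (by decide) (by decide) (by decide),
      X_swap_right hp (a := 6) (b := 11) (c := 2) (d := 7) (by decide) (by decide) (by decide) (by decide),
      X_comm (p := p) 6 11 2 7]
  have e11_6_7_8 : X p 11 6 7 8 = X p 6 11 7 8 := by
    rw [X_swap_left hp (a := 6) (b := 11) (c := 7) (d := 8) (by decide) (by decide) (by decide) (by decide)]
  have e11_8_0_5 : X p 11 8 0 5 = X p 0 5 8 11 := by
    rw [X_swap_left hp (a := 8) (b := 11) (c := 0) (d := 5) (by decide) (by decide) (by decide) (by decide),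
      X_comm (p := p) 8 11 0 5]
  have e11_8_1_0 : X p 11 8 1 0 = X p 0 1 8 11 := by
    rw [X_swap_left hp (a := 8) (b := 11) (c := 1) (d := 0) (by decide) (by decide) (by decide) (by decide),
      X_swap_right hp (a := 8) (b := 11) (c := 0) (d := 1) (by decide) (by decide) (by decide) (by decide),
      X_comm (p := p) 8 11 0 1]
  have e11_8_2_1 : X p 11 8 2 1 = X p 1 2 8 11 := by
    rw [X_swap_left hp (a := 8) (b := 11) (c := 2) (d := 1) (by decide) (by decide) (by decide) (by decide),
      X_swap_right hp (a := 8) (b := 11) (c := 1) (d := 2) (by decide) (by decide) (by decide) (by decide),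
      X_comm (p := p) 8 11 1 2]
  have e11_8_5_2 : X p 11 8 5 2 = X p 2 5 8 11 := by
    rw [X_swap_left hp (a := 8) (b := 11) (c := 5) (d := 2) (by decide) (by decide) (by decide) (by decide),
      X_swap_right hp (a := 8) (b := 11) (c := 2) (d := 5) (by decide) (by decide) (by decide) (by decide),
      X_comm (p := p) 8 11 2 5]
  have e11_8_5_6 : X p 11 8 5 6 = X p 5 6 8 11 := by
    rw [X_swap_left hp (a := 8) (b := 11) (c := 5) (d := 6) (by decide) (by decide) (by decide) (by decide),
      X_comm (p := p) 8 11 5 6]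
  have e11_8_6_7 : X p 11 8 6 7 = X p 6 7 8 11 := by
    rw [X_swap_left hp (a := 8) (b := 11) (c := 6) (d := 7) (by decide) (by decide) (by decide) (by decide),
      X_comm (p := p) 8 11 6 7]
  have e11_8_7_2 : X p 11 8 7 2 = X p 2 7 8 11 := by
    rw [X_swap_left hp (a := 8) (b := 11) (c := 7) (d := 2) (by decide) (by decide) (by decide) (by decide),
      X_swap_right hp (a := 8) (b := 11) (c := 2) (d := 7) (by decide) (by decide) (by decide) (by decide),
      X_comm (p := p) 8 11 2 7]
  have e11_8_7_6 : X p 11 8 7 6 = X p 6 7 8 11 := by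
    rw [X_swap_left hp (a := 8) (b := 11) (c := 7) (d := 6) (by decide) (by decide) (by decide) (by decide),
      X_swap_right hp (a := 8) (b := 11) (c := 6) (d := 7) (by decide) (by decide) (by decide) (by decide),
      X_comm (p := p) 8 11 6 7]
  have z2_7_5_6 : X p 2 7 5 6 = 0 := hE 2 7 5 6 rfl rfl (by decide) (by decide) (by decide) (by decide)
  have z2_7_6_11 : X p 2 7 6 11 = 0 := hE 2 7 6 11 rfl rfl (by decide) (by decide) (by decide) (by decide)
  have z5_6_7_8 : X p 5 6 7 8 = 0 := hE 5 6 7 8 rfl rfl (by decide) (by decide) (by decide) (by decide)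
  have z6_11_7_8 : X p 6 11 7 8 = 0 := hE 6 11 7 8 rfl rfl (by decide) (by decide) (by decide) (by decide)
  simp only [e0_5_11_8, e1_0_11_8, e2_1_11_8, e2_5_7_6, e2_5_8_7, e2_5_11_8, e2_11_9_4, e4_9_2_11, e5_2_7_6, e5_2_7_8, e5_4_2_11, e5_6_7_2, e5_8_2_11, e5_8_7_2, e5_8_7_6, e5_8_11_6, e9_8_2_11, e11_2_5_6, e11_2_5_8, e11_2_7_6, e11_2_7_8, e11_6_5_2, e11_6_5_8, e11_6_7_2, e11_6_7_8, e11_8_0_5, e11_8_1_0, e11_8_2_1, e11_8_5_2, e11_8_5_6, e11_8_6_7, e11_8_7_2, e11_8_7_6] at A B C K ⊢
  simp only [z2_7_5_6, z2_7_6_11, z5_6_7_8, z6_11_7_8] at A B C K ⊢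
  linear_combination K + A + B + C + (
      (1) * X p 2 11 4 5
      + (1) * X p 2 11 8 9
      + (1) * X p 2 11 4 9
      + (-1) * X p 5 6 8 11
      + (-1) * X p 5 8 6 11
      + (-1) * X p 2 5 8 11
      + (-1) * X p 2 11 5 8
      + (-1) * X p 2 5 6 11
      + (-1) * X p 6 7 8 11
      + (-1) * X p 2 7 8 11
      + (-1) * X p 5 8 6 7
      + (-1) * X p 2 7 5 8
      + (-1) * X p 2 5 7 8
      + (-1) * X p 2 5 6 7) * two_zero


end Pool.Agent.Lib.MP_0ea5e1_co
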