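import Mathlib

/-!
Crossing parities for finite point sets in the plane in general position.
-/

namespace Pool.Agent.Lib.MP_0ea5e1_co

/-- Orientation determinant of three points of the plane. -/
def det3 (a b c : ℝ × ℝ) : ℝ := (b.1 - a.1) * (c.2 - a.2) - (b.2 - a.2) * (c.1 - a.1)

/-- Orientation bit. -/
noncomputable def sg (a b c : ℝ × ℝ) : Bool := decide (0 < det3 a b c)

lemma det3_swap (a b c : ℝ × ℝ) : det3 b a c = - det3 a b c := by
  unfold det3; ring

lemma det3_rot (a b c : ℝ × ℝ) : det3 b c a = det3 a b c := by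
  unfold det3; ring

lemma det3_self_left (a c : ℝ × ℝ) : det3 a a c = 0 := by
  unfold det3; ring

lemma sg_self_left (a c : ℝ × ℝ) : sg a a c = false := by
  simp [sg, det3_self_left]

lemma sg_rot (a b c : ℝ × ℝ) : sg b c a = sg a b c := by
  simp [sg, det3_rot]

lemma sg_swap {a b c : ℝ × ℝ} (h : det3 a b c ≠ 0) : sg b a c = !sg a b c := by
  unfold sg
  rw [det3_swap]
  rcases lt_or_gt_of_ne h with h1 | h1
  · have h2 : ¬ (0 < det3 a b c) := by linarith
    have h3 : 0 < - det3 a b c := by linarith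
    simp [h2, h3]
  · have h3 : ¬ (0 < - det3 a b c) := by linarith
    simp [h1, h3]

/-- crossing bit of the segments `ab` and `cd` -/
noncomputable def cross (a b c d : ℝ × ℝ) : Bool :=
  (sg a b c ^^ sg a b d) && (sg c d a ^^ sg c d b)

/-- the bit telling whether `d` lies in the triangle `abc` -/
noncomputable def inTri (a b c d : ℝ × ℝ) : Bool :=
  (sg a b d == sg b c d) && (sg b c d == sg c a d)

lemma gp_signs (a b c d e : ℝ × ℝ)
    (h1 : det3 a b c ≠ 0) (h2 : det3 a d e ≠ 0) (h3 : det3 a b d ≠ 0)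
    (h4 : det3 a c e ≠ 0) (h5 : det3 a b e ≠ 0) (h6 : det3 a c d ≠ 0) :
    ¬ ((sg a b c ^^ sg a d e) = false ∧ (sg a b d ^^ sg a c e) = true ∧
        (sg a b e ^^ sg a c d) = false) ∧
    ¬ ((sg a b c ^^ sg a d e) = true ∧ (sg a b d ^^ sg a c e) = false ∧
        (sg a b e ^^ sg a c d) = true) := by
  have key : det3 a b c * det3 a d e - det3 a b d * det3 a c e
      + det3 a b e * det3 a c d = 0 := by
    unfold det3; ring
  have pos : ∀ x y : ℝ, x ≠ 0 → y ≠ 0 →
      ((decide (0 < x) ^^ decide (0 < y)) = false → 0 < x * y) ∧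
      ((decide (0 < x) ^^ decide (0 < y)) = true → x * y < 0) := by
    intro x y hx hy
    rcases lt_or_gt_of_ne hx with h | h <;> rcases lt_or_gt_of_ne hy with h' | h'
    · have e1 : ¬ 0 < x := by linarith
      have e2 : ¬ 0 < y := by linarith
      simp [e1, e2]
      exact mul_pos_of_neg_of_neg h h'
    · have e1 : ¬ 0 < x := by linarith
      simp [e1, h']
      exact mul_neg_of_neg_of_pos h h'
    · have e2 : ¬ 0 < y := by linarith
      simp [h, e2]
      exact mul_neg_of_pos_of_neg h h'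
    · simp [h, h']
  have p1 := pos _ _ h1 h2
  have p2 := pos _ _ h3 h4
  have p3 := pos _ _ h5 h6
  constructor
  · rintro ⟨e1, e2, e3⟩
    have q1 := p1.1 e1
    have q2 := p2.2 e2
    have q3 := p3.1 e3
    linarith
  · rintro ⟨e1, e2, e3⟩
    have q1 := p1.2 e1
    have q2 := p2.1 e2
    have q3 := p3.2 e3
    linarith

lemma lin_signs (a b c d : ℝ × ℝ)
    (h2 : det3 a b d ≠ 0)
    (h4 : det3 b c d ≠ 0) :
    ¬ (sg a b c = true ∧ sg a b d = false ∧ sg a c d = true ∧ sg b c d = false) ∧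
    ¬ (sg a b c = false ∧ sg a b d = true ∧ sg a c d = false ∧ sg b c d = true) := by
  have key : det3 a b c - det3 a b d + det3 a c d - det3 b c d = 0 := by
    unfold det3; ring
  unfold sg
  constructor
  · rintro ⟨e1, e2, e3, e4⟩
    simp only [decide_eq_true_eq, decide_eq_false_iff_not, not_lt] at e1 e2 e3 e4
    have := lt_of_le_of_ne e2 h2
    have := lt_of_le_of_ne e4 h4
    linarith
  · rintro ⟨e1, e2, e3, e4⟩
    simp only [decide_eq_true_eq, decide_eq_false_iff_not, not_lt] at e1 e2 e3 e4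
    linarith

/-- Grassmann-Pluecker constraint on three product bits. -/
def gpb (p q r : Bool) : Bool := !((!p) && q && (!r)) && !(p && (!q) && r)

lemma gpb_eq {p q r : Bool} (h : ¬ (p = false ∧ q = true ∧ r = false) ∧
    ¬ (p = true ∧ q = false ∧ r = true)) : gpb p q r = true := by
  revert p q r
  decide

/-- Boolean core of the five point identity. The ten bits are the orientations of the
ten triples in lexicographic order. -/
lemma bool_core5 : ∀ (abc abd abe acd ace ade bcd bce bde cde : Bool),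
    (!(gpb (abc ^^ ade) (abd ^^ ace) (abe ^^ acd)) ||
     !(gpb (!abc ^^ bde) (!abd ^^ bce) (!abe ^^ bcd)) ||
     !(gpb (abc ^^ cde) (!acd ^^ !bce) (!ace ^^ !bcd)) ||
     !(gpb (abd ^^ !cde) (acd ^^ !bde) (!ade ^^ bcd)) ||
     !(gpb (abe ^^ cde) (ace ^^ bde) (ade ^^ bce)) ||
    (((((abd ^^ abe) && (ade ^^ bde)) ^^ ((bcd ^^ bce) && (bde ^^ cde))) ^^
      ((!acd ^^ !ace) && (cde ^^ ade))) ==
    (((abd == bcd) && (bcd == !acd)) ^^ ((abe == bce) && (bce == !ace))))) = true := by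
  decide

/-- Boolean core of the four point (Radon) identity. -/
lemma bool_core4 : ∀ (abc abd acd bcd : Bool),
    (¬ (abc = true ∧ abd = false ∧ acd = true ∧ bcd = false) ∧
     ¬ (abc = false ∧ abd = true ∧ acd = false ∧ bcd = true)) →
    -- cross a b c d : (abc ^^ abd) && (cda ^^ cdb), cda = acd, cdb = bcd
    -- cross a c b d : (acb ^^ acd) && (bda ^^ bdc) ; acb = !abc, bda = abd, bdc = !bcd
    -- cross a d b c : (adb ^^ adc) && (bca ^^ bcd) ; adb = !abd, adc = !acd, bca = abc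
    -- inTri a b c d : abd, bcd, cad = !acd
    -- inTri a b d c : abc, bdc = !bcd, dac = acd
    -- inTri a c d b : acb = !abc, cdb = bcd, dab = abd
    -- inTri b c d a : bca = abc, cda = acd, dba = !abd
    (((((abc ^^ abd) && (acd ^^ bcd)) ^^ (((!abc) ^^ acd) && (abd ^^ !bcd))) ^^
      (((!abd) ^^ !acd) && (abc ^^ bcd))) ^^
    ((((abd == bcd) && (bcd == !acd)) ^^ ((abc == !bcd) && ((!bcd) == acd))) ^^
     ((((!abc) == bcd) && (bcd == abd)) ^^ ((abc == acd) && (acd == !abd))))) = true := by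
  decide

/-- The five point identity for five distinct points in general position. -/
lemma cross5 (a b c d e : ℝ × ℝ)
    (abc : det3 a b c ≠ 0) (abd : det3 a b d ≠ 0) (abe : det3 a b e ≠ 0)
    (acd : det3 a c d ≠ 0) (ace : det3 a c e ≠ 0) (ade : det3 a d e ≠ 0)
    (bcd : det3 b c d ≠ 0) (bce : det3 b c e ≠ 0) (bde : det3 b d e ≠ 0)
    (cde : det3 c d e ≠ 0) :
    ((cross a b d e ^^ cross b c d e) ^^ cross c a d e) =
      (inTri a b c d ^^ inTri a b c e) := by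
  have hb : det3 b a c ≠ 0 ∧ det3 b a d ≠ 0 ∧ det3 b a e ≠ 0 := by
    refine ⟨?_, ?_, ?_⟩ <;> rw [det3_swap] <;> simpa
  have hc : det3 c a b ≠ 0 ∧ det3 c a d ≠ 0 ∧ det3 c a e ≠ 0 ∧ det3 c b d ≠ 0 ∧
      det3 c b e ≠ 0 := by
    refine ⟨?_, ?_, ?_, ?_, ?_⟩
    · rw [← det3_rot]; exact abc
    all_goals rw [det3_swap]; simpa
  have hd : det3 d a b ≠ 0 ∧ det3 d c e ≠ 0 ∧ det3 d a c ≠ 0 ∧ det3 d b e ≠ 0 ∧
      det3 d a e ≠ 0 ∧ det3 d b c ≠ 0 := by
    refine ⟨?_, ?_, ?_, ?_, ?_, ?_⟩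
    · rw [← det3_rot]; exact abd
    · rw [det3_swap]; simpa
    · rw [← det3_rot]; exact acd
    · rw [det3_swap]; simpa
    · rw [det3_swap]; simpa
    · rw [← det3_rot]; exact bcd
  have he : det3 e a b ≠ 0 ∧ det3 e c d ≠ 0 ∧ det3 e a c ≠ 0 ∧ det3 e b d ≠ 0 ∧
      det3 e a d ≠ 0 ∧ det3 e b c ≠ 0 := by
    refine ⟨?_, ?_, ?_, ?_, ?_, ?_⟩ <;> rw [← det3_rot] <;> assumption
  have g1 := gpb_eq (gp_signs a b c d e abc ade abd ace abe acd)
  have g2 := gpb_eq (gp_signs b a c d e hb.1 bde hb.2.1 bce hb.2.2 bcd)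
  have g3 := gpb_eq (gp_signs c a b d e hc.1 cde hc.2.1 hc.2.2.2.2 hc.2.2.1 hc.2.2.2.1)
  have g4 := gpb_eq (gp_signs d a b c e hd.1 hd.2.1 hd.2.2.1 hd.2.2.2.1 hd.2.2.2.2.1
    hd.2.2.2.2.2)
  have g5 := gpb_eq (gp_signs e a b c d he.1 he.2.1 he.2.2.1 he.2.2.2.1 he.2.2.2.2.1
    he.2.2.2.2.2)
  -- normalise the bits
  have r1 : sg b a c = !sg a b c := sg_swap abc
  have r2 : sg b a d = !sg a b d := sg_swap abd
  have r3 : sg b a e = !sg a b e := sg_swap abe
  have r4 : sg c a b = sg a b c := by rw [← sg_rot]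
  have r5 : sg c a d = !sg a c d := sg_swap acd
  have r6 : sg c b e = !sg b c e := sg_swap bce
  have r7 : sg c a e = !sg a c e := sg_swap ace
  have r8 : sg c b d = !sg b c d := sg_swap bcd
  have r9 : sg d a b = sg a b d := by rw [← sg_rot]
  have r10 : sg d c e = !sg c d e := sg_swap cde
  have r11 : sg d a c = sg a c d := by rw [← sg_rot]
  have r12 : sg d b e = !sg b d e := sg_swap bde
  have r13 : sg d a e = !sg a d e := sg_swap ade
  have r14 : sg d b c = sg b c d := by rw [← sg_rot]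
  have r15 : sg e a b = sg a b e := by rw [← sg_rot]
  have r16 : sg e c d = sg c d e := by rw [← sg_rot]
  have r17 : sg e a c = sg a c e := by rw [← sg_rot]
  have r18 : sg e b d = sg b d e := by rw [← sg_rot]
  have r19 : sg e a d = sg a d e := by rw [← sg_rot]
  have r20 : sg e b c = sg b c e := by rw [← sg_rot]
  have q1 : sg d e a = sg a d e := by rw [sg_rot]
  have q2 : sg d e b = sg b d e := by rw [sg_rot]
  have q3 : sg d e c = sg c d e := by rw [sg_rot]
  rw [r1, r2, r3] at g2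
  rw [r4, r5, r6, r7, r8] at g3
  rw [r9, r10, r11, r12, r13, r14] at g4
  rw [r15, r16, r17, r18, r19, r20] at g5
  have := bool_core5 (sg a b c) (sg a b d) (sg a b e) (sg a c d) (sg a c e) (sg a d e)
    (sg b c d) (sg b c e) (sg b d e) (sg c d e)
  rw [g1, g2, g3, g4, g5] at this
  unfold cross inTri
  rw [q1, q2, q3, r5, r7]
  simpa using this

/-- The four point (Radon) identity for four distinct points in general position. -/
lemma cross4 (a b c d : ℝ × ℝ)
    (abc : det3 a b c ≠ 0) (abd : det3 a b d ≠ 0) (acd : det3 a c d ≠ 0)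
    (bcd : det3 b c d ≠ 0) :
    ((((cross a b c d ^^ cross a c b d) ^^ cross a d b c)) ^^
      ((inTri a b c d ^^ inTri a b d c) ^^ (inTri a c d b ^^ inTri b c d a))) = true := by
  have h := bool_core4 (sg a b c) (sg a b d) (sg a c d) (sg b c d) (lin_signs a b c d abd bcd)
  have r1 : sg c d a = sg a c d := by rw [sg_rot]
  have r2 : sg c d b = sg b c d := by rw [sg_rot]
  have r3 : sg a c b = !sg a b c := by
    rw [← sg_rot, sg_swap (by rw [det3_rot]; exact abc), sg_rot]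
  have r4 : sg b d a = sg a b d := by rw [sg_rot]
  have r5 : sg b d c = !sg b c d := by
    rw [← sg_rot, sg_swap (by rw [det3_rot]; exact bcd), sg_rot]
  have r6 : sg a d b = !sg a b d := by
    rw [← sg_rot, sg_swap (by rw [det3_rot]; exact abd), sg_rot]
  have r7 : sg a d c = !sg a c d := by
    rw [← sg_rot, sg_swap (by rw [det3_rot]; exact acd), sg_rot]
  have r8 : sg b c a = sg a b c := by rw [sg_rot]
  have r9 : sg c a d = !sg a c d := sg_swap acd
  have r10 : sg d a c = sg a c d := by rw [← sg_rot]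
  have r11 : sg d a b = sg a b d := by rw [← sg_rot]
  have r12 : sg d b a = !sg a b d := by rw [sg_rot]; exact r6
  unfold cross inTri
  rw [r1, r2, r3, r4, r5, r6, r7, r8, r9, r10, r11, r12]
  exact h

/-- No three of the points `p v` are collinear. -/
def GenPos {V : Type*} (p : V → ℝ × ℝ) : Prop :=
  ∀ u v w, u ≠ v → v ≠ w → u ≠ w → det3 (p u) (p v) (p w) ≠ 0

/-- bits as elements of `ZMod 2` -/
def bz (b : Bool) : ZMod 2 := if b then 1 else 0

lemma bz_xor (a b : Bool) : bz (a ^^ b) = bz a + bz b := by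
  cases a <;> cases b <;> decide

lemma bz_true : bz true = 1 := rfl

lemma two_zero : (2 : ZMod 2) = 0 := by decide

/-- crossing number mod two of two segments given by indices -/
noncomputable def X {V : Type*} (p : V → ℝ × ℝ) (a b c d : V) : ZMod 2 :=
  bz (cross (p a) (p b) (p c) (p d))

/-- triangle indicator mod two -/
noncomputable def T {V : Type*} (p : V → ℝ × ℝ) (a b c d : V) : ZMod 2 :=
  bz (inTri (p a) (p b) (p c) (p d))

variable {V : Type*} {p : V → ℝ × ℝ}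

lemma X_comm (a b c d : V) : X p a b c d = X p c d a b := by
  unfold X cross
  rw [Bool.and_comm]

lemma X_self_left (a c d : V) : X p a a c d = 0 := by
  unfold X cross
  simp [sg_self_left, bz]

lemma X_self_right (a b c : V) : X p a b c c = 0 := by
  rw [X_comm, X_self_left]

lemma X_swap_left (hp : GenPos p) {a b c d : V} (hac : a ≠ c) (had : a ≠ d) (hbc : b ≠ c)
    (hbd : b ≠ d) : X p b a c d = X p a b c d := by
  by_cases hab : a = b
  · rw [hab]
  unfold X cross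
  rw [sg_swap (hp a b c hab hbc hac), sg_swap (hp a b d hab hbd had)]
  congr 1
  cases sg (p a) (p b) (p c) <;> cases sg (p a) (p b) (p d) <;>
    cases sg (p c) (p d) (p a) <;> cases sg (p c) (p d) (p b) <;> rfl

lemma X_swap_right (hp : GenPos p) {a b c d : V} (hac : a ≠ c) (had : a ≠ d) (hbc : b ≠ c)
    (hbd : b ≠ d) : X p a b d c = X p a b c d := by
  rw [X_comm, X_swap_left hp hac.symm hbc.symm had.symm hbd.symm, X_comm]

lemma T_rot (a b c d : V) : T p b c a d = T p a b c d := by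
  unfold T inTri
  congr 1
  cases sg (p a) (p b) (p d) <;> cases sg (p b) (p c) (p d) <;>
    cases sg (p c) (p a) (p d) <;> rfl

lemma T_swap (hp : GenPos p) {a b c d : V} (hab : a ≠ b) (hbc : b ≠ c) (hac : a ≠ c)
    (had : a ≠ d) (hbd : b ≠ d) (hcd : c ≠ d) : T p b a c d = T p a b c d := by
  unfold T inTri
  rw [sg_swap (hp a b d hab hbd had), sg_swap (hp c a d hac.symm had hcd),
    sg_swap (hp b c d hbc hcd hbd)]
  congr 1
  cases sg (p a) (p b) (p d) <;> cases sg (p b) (p c) (p d) <;>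
    cases sg (p c) (p a) (p d) <;> rfl

/-- The triangle identity. -/
lemma X5 (hp : GenPos p) {a b c d e : V} (had : a ≠ d) (hbd : b ≠ d) (hcd : c ≠ d)
    (hae : a ≠ e) (hbe : b ≠ e) (hce : c ≠ e) :
    X p a b d e + X p b c d e + X p a c d e = T p a b c d + T p a b c e := by
  have h2 := two_zero
  by_cases hde : d = e
  · subst hde
    rw [X_self_right, X_self_right, X_self_right]
    linear_combination (-T p a b c d) * h2
  by_cases hab : a = b
  · subst hab
    have hT : ∀ x, a ≠ x → c ≠ x → a ≠ c → T p a a c x = 0 := by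
      intro x hax hcx hac
      unfold T inTri
      rw [sg_self_left, sg_swap (hp a c x hac hcx hax)]
      cases sg (p a) (p c) (p x) <;> rfl
    rw [X_self_left]
    by_cases hac : a = c
    · subst hac
      have : ∀ x, T p a a a x = 1 := by
        intro x
        unfold T inTri
        rw [sg_self_left]
        rfl
      rw [X_self_left, this, this]
      decide
    · rw [hT d had hcd hac, hT e hae hce hac]
      linear_combination (X p a c d e) * h2
  by_cases hbc : b = c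
  · subst hbc
    have hT : ∀ x, a ≠ x → b ≠ x → T p a b b x = 0 := by
      intro x hax hbx
      unfold T inTri
      rw [sg_self_left, sg_swap (hp a b x hab hbx hax)]
      cases sg (p a) (p b) (p x) <;> rfl
    rw [X_self_left, hT d had hbd, hT e hae hbe]
    linear_combination (X p a b d e) * h2
  by_cases hac : a = c
  · subst hac
    have hT : ∀ x, a ≠ x → b ≠ x → T p a b a x = 0 := by
      intro x hax hbx
      unfold T inTri
      rw [sg_self_left, sg_swap (hp a b x hab hbx hax)]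
      cases sg (p a) (p b) (p x) <;> rfl
    rw [X_self_left, hT d had hbd, hT e hae hbe, X_swap_left hp had hae hbd hbe]
    linear_combination (X p a b d e) * h2
  have h := cross5 (p a) (p b) (p c) (p d) (p e) (hp _ _ _ hab hbc hac) (hp _ _ _ hab hbd had)
    (hp _ _ _ hab hbe hae) (hp _ _ _ hac hcd had) (hp _ _ _ hac hce hae)
    (hp _ _ _ had hde hae) (hp _ _ _ hbc hcd hbd) (hp _ _ _ hbc hce hbe)
    (hp _ _ _ hbd hde hbe) (hp _ _ _ hcd hde hce)
  have h' := congrArg bz h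
  rw [bz_xor, bz_xor, bz_xor] at h'
  have h3 : X p c a d e = X p a c d e := X_swap_left hp had hae hcd hce
  unfold X at h3 ⊢
  unfold T
  rw [← h3]
  exact h'

/-- The Radon identity. -/
lemma X4 (hp : GenPos p) {a b c d : V} (hab : a ≠ b) (hac : a ≠ c) (had : a ≠ d)
    (hbc : b ≠ c) (hbd : b ≠ d) (hcd : c ≠ d) :
    X p a b c d + X p a c b d + X p a d b c + T p a b c d + T p a b d c + T p a c d b +
      T p b c d a = 1 := by
  have h := cross4 (p a) (p b) (p c) (p d) (hp _ _ _ hab hbc hac) (hp _ _ _ hab hbd had)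
    (hp _ _ _ hac hcd had) (hp _ _ _ hbc hcd hbd)
  have h' := congrArg bz h
  rw [bz_xor, bz_xor, bz_xor, bz_xor, bz_xor, bz_xor, bz_true] at h'
  unfold X T
  rw [← h']
  ring

/-- Sum of crossings of the segment `ab` with a walk. -/
noncomputable def XW {V : Type*} (p : V → ℝ × ℝ) (a b : V) : V → List V → ZMod 2
  | _, [] => 0
  | x, y :: L => X p a b x y + XW p a b y L

lemma XW_triple (hp : GenPos p) {a b c : V} : ∀ (L : List V) (x : V),
    (∀ y ∈ x :: L, a ≠ y ∧ b ≠ y ∧ c ≠ y) →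
    XW p a b x L + XW p b c x L + XW p a c x L =
      T p a b c x + T p a b c ((x :: L).getLast (List.cons_ne_nil _ _)) := by
  intro L
  induction L with
  | nil =>
    intro x _
    simp only [XW, List.getLast_singleton]
    linear_combination (-T p a b c x) * two_zero
  | cons y L ih =>
    intro x h
    have hx := h x (by simp)
    have hy := h y (by simp)
    have ih' := ih y (fun z hz => h z (List.mem_cons_of_mem _ hz))
    have h5 := X5 hp hx.1 hx.2.1 hx.2.2 hy.1 hy.2.1 hy.2.2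
    rw [List.getLast_cons (List.cons_ne_nil y L)]
    simp only [XW]
    linear_combination h5 + ih' + (T p a b c y) * two_zero

/-- Closed walks: additivity. -/
lemma XW_closed (hp : GenPos p) {a b c : V} (L : List V) (x : V)
    (h : ∀ y ∈ x :: L, a ≠ y ∧ b ≠ y ∧ c ≠ y)
    (hcl : (x :: L).getLast (List.cons_ne_nil _ _) = x) :
    XW p a b x L + XW p b c x L = XW p a c x L := by
  have h1 := XW_triple hp L x h
  rw [hcl] at h1
  linear_combination h1 + (T p a b c x - XW p a c x L) * two_zero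

/-- Parity of the crossing number of a straight-line `K₃,₃` in general position. -/
lemma K33 (hp : GenPos p) {a1 a2 a3 b1 b2 b3 : V}
    (ha1a2 : a1 ≠ a2) (ha1a3 : a1 ≠ a3) (ha1b1 : a1 ≠ b1) (ha1b2 : a1 ≠ b2) (ha1b3 : a1 ≠ b3)
    (ha2a3 : a2 ≠ a3) (ha2b1 : a2 ≠ b1) (ha2b2 : a2 ≠ b2) (ha2b3 : a2 ≠ b3) (ha3b1 : a3 ≠ b1)
    (ha3b2 : a3 ≠ b2) (ha3b3 : a3 ≠ b3) (hb1b2 : b1 ≠ b2) (hb1b3 : b1 ≠ b3) (hb2b3 : b2 ≠ b3) :
    X p a1 b1 a2 b2 + X p a1 b2 a2 b1 + X p a1 b1 a2 b3 + X p a1 b3 a2 b1 + X p a1 b2 a2 b3 +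
    X p a1 b3 a2 b2 + X p a1 b1 a3 b2 + X p a1 b2 a3 b1 + X p a1 b1 a3 b3 + X p a1 b3 a3 b1 +
    X p a1 b2 a3 b3 + X p a1 b3 a3 b2 + X p a2 b1 a3 b2 + X p a2 b2 a3 b1 + X p a2 b1 a3 b3 +
    X p a2 b3 a3 b1 + X p a2 b2 a3 b3 + X p a2 b3 a3 b2 = 1 := by
  have r0101 := X4 hp ha1a2 ha1b1 ha1b2 ha2b1 ha2b2 hb1b2
  rw [← T_rot (p := p) a1 b1 b2 a2, ← T_rot (p := p) a2 b1 b2 a1] at r0101
  have r0102 := X4 hp ha1a2 ha1b1 ha1b3 ha2b1 ha2b3 hb1b3
  rw [← T_rot (p := p) a1 b1 b3 a2, ← T_rot (p := p) a2 b1 b3 a1] at r0102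
  have r0112 := X4 hp ha1a2 ha1b2 ha1b3 ha2b2 ha2b3 hb2b3
  rw [← T_rot (p := p) a1 b2 b3 a2, ← T_rot (p := p) a2 b2 b3 a1] at r0112
  have r0201 := X4 hp ha1a3 ha1b1 ha1b2 ha3b1 ha3b2 hb1b2
  rw [← T_rot (p := p) a1 b1 b2 a3, ← T_rot (p := p) a3 b1 b2 a1] at r0201
  have r0202 := X4 hp ha1a3 ha1b1 ha1b3 ha3b1 ha3b3 hb1b3
  rw [← T_rot (p := p) a1 b1 b3 a3, ← T_rot (p := p) a3 b1 b3 a1] at r0202
  have r0212 := X4 hp ha1a3 ha1b2 ha1b3 ha3b2 ha3b3 hb2b3
  rw [← T_rot (p := p) a1 b2 b3 a3, ← T_rot (p := p) a3 b2 b3 a1] at r0212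
  have r1201 := X4 hp ha2a3 ha2b1 ha2b2 ha3b1 ha3b2 hb1b2
  rw [← T_rot (p := p) a2 b1 b2 a3, ← T_rot (p := p) a3 b1 b2 a2] at r1201
  have r1202 := X4 hp ha2a3 ha2b1 ha2b3 ha3b1 ha3b3 hb1b3
  rw [← T_rot (p := p) a2 b1 b3 a3, ← T_rot (p := p) a3 b1 b3 a2] at r1202
  have r1212 := X4 hp ha2a3 ha2b2 ha2b3 ha3b2 ha3b3 hb2b3
  rw [← T_rot (p := p) a2 b2 b3 a3, ← T_rot (p := p) a3 b2 b3 a2] at r1212
  have s010 := X5 hp ha1b2 ha2b2 hb1b2 ha1b3 ha2b3 hb1b3
  have s011 := X5 hp ha1b1 ha2b1 hb1b2.symm ha1b3 ha2b3 hb2b3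
  have s012 := X5 hp ha1b1 ha2b1 hb1b3.symm ha1b2 ha2b2 hb2b3.symm
  have s020 := X5 hp ha1b2 ha3b2 hb1b2 ha1b3 ha3b3 hb1b3
  have s021 := X5 hp ha1b1 ha3b1 hb1b2.symm ha1b3 ha3b3 hb2b3
  have s022 := X5 hp ha1b1 ha3b1 hb1b3.symm ha1b2 ha3b2 hb2b3.symm
  have s120 := X5 hp ha2b2 ha3b2 hb1b2 ha2b3 ha3b3 hb1b3
  have s121 := X5 hp ha2b1 ha3b1 hb1b2.symm ha2b3 ha3b3 hb2b3
  have s122 := X5 hp ha2b1 ha3b1 hb1b3.symm ha2b2 ha3b2 hb2b3.symm
  have t010 := X5 hp ha2b1.symm ha2b2.symm ha1a2 ha3b1.symm ha3b2.symm ha1a3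
  rw [X_comm (p := p) b1 b2 a2 a3, X_swap_left hp ha1a2 ha1a3 ha2b2.symm ha3b2.symm,
      X_swap_left hp ha1a2 ha1a3 ha2b1.symm ha3b1.symm] at t010
  have t011 := X5 hp ha1b1.symm ha1b2.symm ha1a2.symm ha3b1.symm ha3b2.symm ha2a3
  rw [X_comm (p := p) b1 b2 a1 a3, X_swap_left hp ha1a2.symm ha2a3 ha1b2.symm ha3b2.symm,
      X_swap_left hp ha1a2.symm ha2a3 ha1b1.symm ha3b1.symm] at t011
  have t012 := X5 hp ha1b1.symm ha1b2.symm ha1a3.symm ha2b1.symm ha2b2.symm ha2a3.symm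
  rw [X_comm (p := p) b1 b2 a1 a2, X_swap_left hp ha1a3.symm ha2a3.symm ha1b2.symm ha2b2.symm,
      X_swap_left hp ha1a3.symm ha2a3.symm ha1b1.symm ha2b1.symm] at t012
  have t020 := X5 hp ha2b1.symm ha2b3.symm ha1a2 ha3b1.symm ha3b3.symm ha1a3
  rw [X_comm (p := p) b1 b3 a2 a3, X_swap_left hp ha1a2 ha1a3 ha2b3.symm ha3b3.symm,
      X_swap_left hp ha1a2 ha1a3 ha2b1.symm ha3b1.symm] at t020
  have t021 := X5 hp ha1b1.symm ha1b3.symm ha1a2.symm ha3b1.symm ha3b3.symm ha2a3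
  rw [X_comm (p := p) b1 b3 a1 a3, X_swap_left hp ha1a2.symm ha2a3 ha1b3.symm ha3b3.symm,
      X_swap_left hp ha1a2.symm ha2a3 ha1b1.symm ha3b1.symm] at t021
  have t022 := X5 hp ha1b1.symm ha1b3.symm ha1a3.symm ha2b1.symm ha2b3.symm ha2a3.symm
  rw [X_comm (p := p) b1 b3 a1 a2, X_swap_left hp ha1a3.symm ha2a3.symm ha1b3.symm ha2b3.symm,
      X_swap_left hp ha1a3.symm ha2a3.symm ha1b1.symm ha2b1.symm] at t022
  have t120 := X5 hp ha2b2.symm ha2b3.symm ha1a2 ha3b2.symm ha3b3.symm ha1a3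
  rw [X_comm (p := p) b2 b3 a2 a3, X_swap_left hp ha1a2 ha1a3 ha2b3.symm ha3b3.symm,
      X_swap_left hp ha1a2 ha1a3 ha2b2.symm ha3b2.symm] at t120
  have t121 := X5 hp ha1b2.symm ha1b3.symm ha1a2.symm ha3b2.symm ha3b3.symm ha2a3
  rw [X_comm (p := p) b2 b3 a1 a3, X_swap_left hp ha1a2.symm ha2a3 ha1b3.symm ha3b3.symm,
      X_swap_left hp ha1a2.symm ha2a3 ha1b2.symm ha3b2.symm] at t121
  have t122 := X5 hp ha1b2.symm ha1b3.symm ha1a3.symm ha2b2.symm ha2b3.symm ha2a3.symm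
  rw [X_comm (p := p) b2 b3 a1 a2, X_swap_left hp ha1a3.symm ha2a3.symm ha1b3.symm ha2b3.symm,
      X_swap_left hp ha1a3.symm ha2a3.symm ha1b2.symm ha2b2.symm] at t122
  have u01 := X5 hp ha1b1 ha2b1 ha3b1 ha1b2 ha2b2 ha3b2
  have u02 := X5 hp ha1b1 ha2b1 ha3b1 ha1b3 ha2b3 ha3b3
  have u12 := X5 hp ha1b2 ha2b2 ha3b2 ha1b3 ha2b3 ha3b3
  linear_combination
    r0101 + r0102 + r0112 + r0201 + r0202 + r0212 + r1201 + r1202 + r1212 + s010 + s011 +
    s012 + s020 + s021 + s022 + s120 + s121 + s122 + t010 + t011 + t012 + t020 + t021 + t022 +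
    t120 + t121 + t122 - 3 * (u01 + u02 + u12) +
    (4 - 3 * (T p a1 a2 a3 b1 + T p a1 a2 a3 b2 + T p a1 a2 a3 b3)
      - (
        X p a1 b1 b2 b3 + X p a1 b2 b1 b3 + X p a1 b3 b1 b2 + X p a2 b1 b2 b3 +
        X p a2 b2 b1 b3 + X p a2 b3 b1 b2 + X p a3 b1 b2 b3 + X p a3 b2 b1 b3 + X p a3 b3 b1 b2
      ) - (
        X p a1 b1 a2 a3 + X p a1 b2 a2 a3 + X p a1 b3 a2 a3 + X p a2 b1 a1 a3 +
        X p a2 b2 a1 a3 + X p a2 b3 a1 a3 + X p a3 b1 a1 a2 + X p a3 b2 a1 a2 + X p a3 b3 a1 a2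
      )) * two_zero

end Pool.Agent.Lib.MP_0ea5e1_co
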