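import Pool.Agent.Lib.MP_0ea5e1_co.Parity

/-!
Crossing bits versus disjointness of segments, and perturbation to general position.
-/

open Filter Topology Set

namespace Pool.Agent.Lib.MP_0ea5e1_co

lemma mul_neg_of_xor {x y : ℝ} (hx : x ≠ 0) (hy : y ≠ 0)
    (h : (decide (0 < x) ^^ decide (0 < y)) = true) : x * y < 0 := by
  rcases lt_or_gt_of_ne hx with h1 | h1 <;> rcases lt_or_gt_of_ne hy with h2 | h2
  · have e1 : ¬ 0 < x := by linarith
    have e2 : ¬ 0 < y := by linarith
    simp [e1, e2] at h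
  · exact mul_neg_of_neg_of_pos h1 h2
  · exact mul_neg_of_pos_of_neg h1 h2
  · simp [h1, h2] at h

/-- If the crossing bit is set, the closed segments meet. -/
lemma exists_mem_of_cross {a b c d : ℝ × ℝ} (hC : det3 a b c ≠ 0) (hD : det3 a b d ≠ 0)
    (hA : det3 c d a ≠ 0) (hB : det3 c d b ≠ 0) (h : cross a b c d = true) :
    ∃ x, x ∈ segment ℝ a b ∧ x ∈ segment ℝ c d := by
  unfold cross sg at h
  rw [Bool.and_eq_true] at h
  have h1 := mul_neg_of_xor hC hD h.1
  have h2 := mul_neg_of_xor hA hB h.2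
  set A := det3 c d a with hAdef
  set B := det3 c d b with hBdef
  set C := det3 a b c with hCdef
  set D := det3 a b d with hDdef
  have hW1 : C - D = -(A - B) := by
    rw [hAdef, hBdef, hCdef, hDdef]; unfold det3; ring
  set W := A - B with hWdef
  have hW : W ≠ 0 := by
    intro h0
    have : A = B := by linarith
    rw [this] at h2
    nlinarith [mul_self_nonneg B]
  have hAW : 0 ≤ A / W := by
    have : A / W = (A * W) / (W * W) := by field_simp
    rw [this]
    apply div_nonneg _ (mul_self_nonneg W)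
    have : A * W = A * A - A * B := by rw [hWdef]; ring
    rw [this]; nlinarith [mul_self_nonneg A]
  have hBW : 0 ≤ -B / W := by
    have : -B / W = (-B * W) / (W * W) := by field_simp
    rw [this]
    apply div_nonneg _ (mul_self_nonneg W)
    have : -B * W = B * B - A * B := by rw [hWdef]; ring
    rw [this]; nlinarith [mul_self_nonneg B]
  have hDC : D - C = W := by linarith
  have hDW : 0 ≤ D / W := by
    have : D / W = (D * W) / (W * W) := by field_simp
    rw [this]
    apply div_nonneg _ (mul_self_nonneg W)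
    have : D * W = D * D - C * D := by rw [← hDC]; ring
    rw [this]; nlinarith [mul_self_nonneg D]
  have hCW : 0 ≤ -C / W := by
    have : -C / W = (-C * W) / (W * W) := by field_simp
    rw [this]
    apply div_nonneg _ (mul_self_nonneg W)
    have : -C * W = C * C - C * D := by rw [← hDC]; ring
    rw [this]; nlinarith [mul_self_nonneg C]
  refine ⟨(-B / W) • a + (A / W) • b, ⟨-B / W, A / W, hBW, hAW, ?_, rfl⟩,
    ⟨D / W, -C / W, hDW, hCW, ?_, ?_⟩⟩
  · rw [← add_div, show -B + A = W by rw [hWdef]; ring, div_self hW]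
  · rw [← add_div, show D + -C = W by linarith, div_self hW]
  · have key1 : D * c.1 - C * d.1 = - B * a.1 + A * b.1 := by
      rw [hAdef, hBdef, hCdef, hDdef]; unfold det3; ring
    have key2 : D * c.2 - C * d.2 = - B * a.2 + A * b.2 := by
      rw [hAdef, hBdef, hCdef, hDdef]; unfold det3; ring
    ext
    · simp only [Prod.fst_add, Prod.smul_fst, smul_eq_mul]
      field_simp
      linarith
    · simp only [Prod.snd_add, Prod.smul_snd, smul_eq_mul]
      field_simp
      linarith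

lemma X_eq_zero_of_disjoint {V : Type*} {p : V → ℝ × ℝ} (hp : GenPos p) {a b c d : V}
    (hac : a ≠ c) (had : a ≠ d) (hbc : b ≠ c) (hbd : b ≠ d)
    (h : ∀ x, x ∈ segment ℝ (p a) (p b) → x ∉ segment ℝ (p c) (p d)) : X p a b c d = 0 := by
  by_cases hab : a = b
  · subst hab; exact X_self_left _ _ _
  by_cases hcd : c = d
  · subst hcd; exact X_self_right _ _ _
  unfold X
  cases hcr : cross (p a) (p b) (p c) (p d) with
  | false => rfl
  | true =>
    exfalso
    obtain ⟨x, h1, h2⟩ := exists_mem_of_cross (hp _ _ _ hab hbc hac) (hp _ _ _ hab hbd had)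
      (hp _ _ _ hcd had.symm hac.symm) (hp _ _ _ hcd hbd.symm hbc.symm) hcr
    exact h x h1 h2

/-- Perturbation along the moment curve. -/
def pert {V : Type*} (δ : V → ℝ × ℝ) (t : V → ℝ) (ε : ℝ) (v : V) : ℝ × ℝ :=
  ((δ v).1 + ε * t v, (δ v).2 + ε * (t v) ^ 2)

lemma quad_ne (A B C : ℝ) (hC : C ≠ 0) : ∀ᶠ ε in 𝓝[>] (0 : ℝ), A + ε * B + ε ^ 2 * C ≠ 0 := by
  by_cases hA : A = 0
  · by_cases hB : B = 0
    · subst hA; subst hB
      filter_upwards [self_mem_nhdsWithin] with ε hε
      have : (0 : ℝ) < ε := hε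
      have h2 : ε ^ 2 * C ≠ 0 := mul_ne_zero (pow_ne_zero _ this.ne') hC
      simpa using h2
    · subst hA
      have hcont : Tendsto (fun ε : ℝ => B + ε * C) (𝓝[>] 0) (𝓝 B) := by
        have : Tendsto (fun ε : ℝ => B + ε * C) (𝓝 0) (𝓝 (B + 0 * C)) := by
          apply Continuous.tendsto; fun_prop
        simpa using this.mono_left nhdsWithin_le_nhds
      filter_upwards [self_mem_nhdsWithin, hcont.eventually_ne hB] with ε hε h
      have h0 : (0 : ℝ) < ε := hε
      have : 0 + ε * B + ε ^ 2 * C = ε * (B + ε * C) := by ring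
      rw [this]
      exact mul_ne_zero h0.ne' h
  · have hcont : Tendsto (fun ε : ℝ => A + ε * B + ε ^ 2 * C) (𝓝[>] 0) (𝓝 A) := by
      have : Tendsto (fun ε : ℝ => A + ε * B + ε ^ 2 * C) (𝓝 0) (𝓝 (A + 0 * B + 0 ^ 2 * C)) := by
        apply Continuous.tendsto; fun_prop
      simpa using this.mono_left nhdsWithin_le_nhds
    exact hcont.eventually_ne hA

lemma eventually_genPos {V : Type*} [Finite V] (δ : V → ℝ × ℝ) {t : V → ℝ}
    (ht : Function.Injective t) : ∀ᶠ ε in 𝓝[>] (0 : ℝ), GenPos (pert δ t ε) := by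
  unfold GenPos
  rw [eventually_all]; intro u
  rw [eventually_all]; intro v
  rw [eventually_all]; intro w
  by_cases huv : u = v
  · exact Eventually.of_forall (fun _ h => absurd huv h)
  by_cases hvw : v = w
  · exact Eventually.of_forall (fun _ _ h => absurd hvw h)
  by_cases huw : u = w
  · exact Eventually.of_forall (fun _ _ _ h => absurd huw h)
  have h1 : t v - t u ≠ 0 := sub_ne_zero.mpr (fun h => huv (ht h.symm))
  have h2 : t w - t u ≠ 0 := sub_ne_zero.mpr (fun h => huw (ht h.symm))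
  have h3 : t w - t v ≠ 0 := sub_ne_zero.mpr (fun h => hvw (ht h.symm))
  have hne : (t v - t u) * (t w - t u) * (t w - t v) ≠ 0 :=
    mul_ne_zero (mul_ne_zero h1 h2) h3
  filter_upwards [quad_ne (det3 (δ u) (δ v) (δ w))
    (((δ v).1 - (δ u).1) * ((t w) ^ 2 - (t u) ^ 2) + (t v - t u) * ((δ w).2 - (δ u).2)
      - ((δ v).2 - (δ u).2) * (t w - t u) - ((t v) ^ 2 - (t u) ^ 2) * ((δ w).1 - (δ u).1))
    _ hne] with ε hε _ _ _
  intro h0
  apply hε
  rw [← h0]
  unfold det3 pert
  ring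

lemma eventually_disjoint {V : Type*} (δ : V → ℝ × ℝ) (t : V → ℝ) (a b c d : V)
    (h : ∀ x, x ∈ segment ℝ (δ a) (δ b) → x ∉ segment ℝ (δ c) (δ d)) :
    ∀ᶠ ε in 𝓝[>] (0 : ℝ), ∀ x, x ∈ segment ℝ (pert δ t ε a) (pert δ t ε b) →
      x ∉ segment ℝ (pert δ t ε c) (pert δ t ε d) := by
  have hK : IsCompact ((Icc (0 : ℝ) 1) ×ˢ (Icc (0 : ℝ) 1)) := isCompact_Icc.prod isCompact_Icc
  have key : ∀ᶠ ε in 𝓝 (0 : ℝ), ∀ y ∈ ((Icc (0 : ℝ) 1) ×ˢ (Icc (0 : ℝ) 1)),
      ((1 - y.1) • pert δ t ε a + y.1 • pert δ t ε b) ≠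
        ((1 - y.2) • pert δ t ε c + y.2 • pert δ t ε d) := by
    apply hK.eventually_forall_of_forall_eventually
    intro y hy
    have hne : ((1 - y.1) • pert δ t 0 a + y.1 • pert δ t 0 b) ≠
        ((1 - y.2) • pert δ t 0 c + y.2 • pert δ t 0 d) := by
      intro heq
      have e : ∀ v, pert δ t 0 v = δ v := by
        intro v; unfold pert; ext <;> simp
      rw [e, e, e, e] at heq
      refine h _ ?_ (heq ▸ ?_ : ((1 - y.1) • δ a + y.1 • δ b) ∈ segment ℝ (δ c) (δ d))
      · rw [segment_eq_image]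
        exact ⟨y.1, hy.1, rfl⟩
      · rw [segment_eq_image]
        exact ⟨y.2, hy.2, rfl⟩
    have hc : Continuous (fun z : ℝ × (ℝ × ℝ) =>
        ((1 - z.2.1) • pert δ t z.1 a + z.2.1 • pert δ t z.1 b) -
        ((1 - z.2.2) • pert δ t z.1 c + z.2.2 • pert δ t z.1 d)) := by
      unfold pert
      fun_prop
    have := hc.continuousAt (x := (0, y))
    have h2 := this.eventually_ne (sub_ne_zero.mpr hne)
    filter_upwards [h2] with z hz
    exact sub_ne_zero.mp hz
  have key' : ∀ᶠ ε in 𝓝[>] (0 : ℝ), ∀ y ∈ ((Icc (0 : ℝ) 1) ×ˢ (Icc (0 : ℝ) 1)),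
      ((1 - y.1) • pert δ t ε a + y.1 • pert δ t ε b) ≠
        ((1 - y.2) • pert δ t ε c + y.2 • pert δ t ε d) := key.filter_mono nhdsWithin_le_nhds
  filter_upwards [key'] with ε hε x hx hx'
  rw [segment_eq_image] at hx hx'
  obtain ⟨s, hs, rfl⟩ := hx
  obtain ⟨r, hr, hr2⟩ := hx'
  exact hε (s, r) ⟨hs, hr⟩ hr2.symm

end Pool.Agent.Lib.MP_0ea5e1_co
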