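import Pool.Agent.Lib.MP_0ea5e1_co.Separate

/-!
An explicit plane straight-line drawing of the helical tube (a spiral).
-/

namespace Pool.Agent.Lib.MP_0ea5e1_co

/-- x-coordinates of the five directions -/
def dx : ℕ → ℝ
  | 0 => 4
  | 1 => 1
  | 2 => -1
  | 3 => -4
  | _ => 0

/-- y-coordinates of the five directions -/
def dy : ℕ → ℝ
  | 0 => 0
  | 1 => 2
  | 2 => 2
  | 3 => 0
  | _ => -1

/-- points of the sector `i` -/
def secP (i : ℕ) (a b : ℝ) : ℝ × ℝ :=
  (a * dx i + b * dx ((i + 1) % 5), a * dy i + b * dy ((i + 1) % 5))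

lemma sec_same {i : ℕ} (hi : i < 5) {a b a' b' : ℝ} (h : secP i a b = secP i a' b') :
    a = a' ∧ b = b' := by
  unfold secP at h
  rw [Prod.mk.injEq] at h
  obtain ⟨h1, h2⟩ := h
  interval_cases i <;> norm_num [dx, dy] at h1 h2 <;> constructor <;> linarith

lemma sec_next {i : ℕ} (hi : i < 5) {a b a' b' : ℝ} (ha : 0 ≤ a) (hb : 0 ≤ b) (ha' : 0 ≤ a')
    (hb' : 0 ≤ b') (h : secP i a b = secP ((i + 1) % 5) a' b') :
    a = 0 ∧ b' = 0 ∧ b = a' := by
  unfold secP at h
  rw [Prod.mk.injEq] at h
  obtain ⟨h1, h2⟩ := h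
  interval_cases i <;> norm_num [dx, dy] at h1 h2 <;>
    refine ⟨le_antisymm (by linarith) ha, le_antisymm (by linarith) hb',
      le_antisymm (by linarith) (by linarith)⟩

lemma sec_far {i : ℕ} (hi : i < 5) {a b a' b' : ℝ} (ha : 0 ≤ a) (hb : 0 ≤ b) (ha' : 0 ≤ a')
    (hb' : 0 ≤ b') (h : secP i a b = secP ((i + 2) % 5) a' b') :
    a = 0 ∧ b = 0 ∧ a' = 0 ∧ b' = 0 := by
  unfold secP at h
  rw [Prod.mk.injEq] at h
  obtain ⟨h1, h2⟩ := h
  interval_cases i <;> norm_num [dx, dy] at h1 h2 <;>
    refine ⟨le_antisymm (by linarith) ha, le_antisymm (by linarith) hb,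
      le_antisymm (by linarith) ha', le_antisymm (by linarith) hb'⟩

/-- Representations in sectors are essentially unique. -/
lemma sec_unique {i j : ℕ} (hi : i < 5) (hj : j < 5) {a b a' b' : ℝ} (ha : 0 ≤ a) (hb : 0 ≤ b)
    (ha' : 0 ≤ a') (hb' : 0 ≤ b') (h : secP i a b = secP j a' b') :
    (i = j ∧ a = a' ∧ b = b') ∨ (j = (i + 1) % 5 ∧ a = 0 ∧ b' = 0 ∧ b = a') ∨
    (i = (j + 1) % 5 ∧ a' = 0 ∧ b = 0 ∧ b' = a) ∨ (a = 0 ∧ b = 0 ∧ a' = 0 ∧ b' = 0) := by
  have hc : j = i ∨ j = (i + 1) % 5 ∨ j = (i + 2) % 5 ∨ i = (j + 2) % 5 ∨ i = (j + 1) % 5 := by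
    omega
  rcases hc with hc | hc | hc | hc | hc
  · subst hc
    exact Or.inl ⟨rfl, sec_same hi h⟩
  · right; left
    have h' := h
    rw [hc] at h'
    exact ⟨hc, sec_next hi ha hb ha' hb' h'⟩
  · right; right; right
    rw [hc] at h
    exact sec_far hi ha hb ha' hb' h
  · right; right; right
    have h' := h.symm
    rw [hc] at h'
    obtain ⟨e1, e2, e3, e4⟩ := sec_far hj ha' hb' ha hb h'
    exact ⟨e3, e4, e1, e2⟩
  · right; right; left
    have h' := h.symm
    rw [hc] at h'
    exact ⟨hc, sec_next hj ha' hb' ha hb h'⟩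

/-- radius of the vertex `v` -/
def rad (n v : ℕ) : ℝ := (n : ℝ) + 10 - v

/-- the drawing -/
noncomputable def drawN (n v : ℕ) : ℝ × ℝ :=
  if v < n then (rad n v * dx (v % 5), rad n v * dy (v % 5))
  else if v = n then (0, 100 * ((n : ℝ) + 10)) else (0, 0)

lemma rad_pos {n v : ℕ} (hv : v < n) : 0 < rad n v := by
  unfold rad
  have : (v : ℝ) < n := by exact_mod_cast hv
  linarith

lemma rad_lt {n v w : ℕ} (h : v < w) : rad n w < rad n v := by
  unfold rad
  have : (v : ℝ) < w := by exact_mod_cast h
  linarith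

lemma rad_le {n v w : ℕ} (h : v ≤ w) : rad n w ≤ rad n v := by
  unfold rad
  have : (v : ℝ) ≤ w := by exact_mod_cast h
  linarith

lemma le_of_rad_le {n v w : ℕ} (h : rad n w ≤ rad n v) : v ≤ w := by
  unfold rad at h
  have : (v : ℝ) ≤ w := by linarith
  exact_mod_cast this

lemma eq_of_rad_eq {n v w : ℕ} (h : rad n w = rad n v) : v = w :=
  le_antisymm (le_of_rad_le h.le) (le_of_rad_le h.ge)

lemma drawN_path {n v : ℕ} (hv : v < n) : drawN n v = secP (v % 5) (rad n v) 0 := by
  unfold drawN secP
  simp [hv]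

lemma drawN_path' {n v : ℕ} (hv : v + 1 < n) : drawN n (v + 1) = secP (v % 5) 0 (rad n (v + 1)) := by
  unfold drawN secP
  have : (v % 5 + 1) % 5 = (v + 1) % 5 := by omega
  simp [hv, this]

lemma drawN_o (n : ℕ) : drawN n n = (0, 100 * ((n : ℝ) + 10)) := by
  unfold drawN; simp

lemma drawN_c (n : ℕ) : drawN n (n + 1) = (0, 0) := by
  unfold drawN; simp

/-- the points of an edge not at the cap `n` -/
inductive EdgePt (n a b : ℕ) (x : ℝ × ℝ) : Prop
  | path (h : b = a + 1) (hb : b < n) (t : ℝ) (h0 : 0 ≤ t) (h1 : t ≤ 1)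
      (hx : x = secP (a % 5) ((1 - t) * rad n a) (t * rad n b)) : EdgePt n a b x
  | rung (h : b = a + 5) (he : a % 2 = 0) (hb : b < n) (r : ℝ) (h0 : rad n b ≤ r)
      (h1 : r ≤ rad n a) (hx : x = secP (a % 5) r 0) : EdgePt n a b x
  | cap (h : b = n + 1) (he : a + 4 = n ∨ a + 2 = n ∨ a + 1 = n) (r : ℝ) (h0 : 0 ≤ r)
      (h1 : r ≤ rad n a) (hx : x = secP (a % 5) r 0) : EdgePt n a b x

lemma edgePt_of {n a b : ℕ} (h : tubeRel n a b) (hbn : b ≠ n) {x : ℝ × ℝ}
    (hx : x ∈ segment ℝ (drawN n a) (drawN n b)) : EdgePt n a b x := by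
  obtain ⟨s, t, hs, ht, hst, rfl⟩ := hx
  unfold tubeRel at h
  rcases h with ⟨h1, h2⟩ | ⟨h1, h2, h3⟩ | ⟨h1, h2⟩ | ⟨h1, h2⟩
  · refine EdgePt.path h1 h2 t ht (by linarith) ?_
    have hs' : s = 1 - t := by linarith
    subst h1
    rw [drawN_path (v := a) (by omega), drawN_path' h2, hs']
    unfold secP
    ext <;> simp <;> ring
  · refine EdgePt.rung h1 h2 h3 (s * rad n a + t * rad n b) ?_ ?_ ?_
    · have := rad_le (n := n) (v := a) (w := b) (by omega)
      have hs' : s = 1 - t := by linarith
      subst hs'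
      nlinarith
    · have := rad_le (n := n) (v := a) (w := b) (by omega)
      have ht' : t = 1 - s := by linarith
      subst ht'
      nlinarith
    · rw [drawN_path (v := a) (by omega), drawN_path (v := b) h3]
      have : b % 5 = a % 5 := by omega
      rw [this]
      unfold secP
      ext <;> simp <;> ring
  · exact absurd h1 hbn
  · have ha : a < n := by omega
    refine EdgePt.cap h1 h2 (s * rad n a) (mul_nonneg hs (rad_pos ha).le) ?_ ?_
    · have := rad_pos ha
      nlinarith
    · rw [drawN_path ha, h1, drawN_c]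
      unfold secP
      ext <;> simp <;> ring

/-- two edges not at the cap `n` meet only in common endpoints -/
lemma edgePt_inter {n a b c d : ℕ} {x : ℝ × ℝ} (h1 : EdgePt n a b x) (h2 : EdgePt n c d x)
    (hne : ¬ (a = c ∧ b = d)) : ∃ v, (v = a ∨ v = b) ∧ (v = c ∨ v = d) ∧ drawN n v = x := by
  have i5 : a % 5 < 5 := Nat.mod_lt _ (by norm_num)
  have j5 : c % 5 < 5 := Nat.mod_lt _ (by norm_num)
  rcases h1 with ⟨hb, hbn, t, ht0, ht1, hx⟩ | ⟨hb, he, hbn, r, hr0, hr1, hx⟩ |
      ⟨hb, he, r, hr0, hr1, hx⟩ <;>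
  rcases h2 with ⟨hd, hdn, s, hs0, hs1, hy⟩ | ⟨hd, he', hdn, r', hr0', hr1', hy⟩ |
      ⟨hd, he', r', hr0', hr1', hy⟩
  · -- path, path
    have pa := rad_pos (n := n) (v := a) (by omega)
    have pb := rad_pos (n := n) (v := b) hbn
    have pc := rad_pos (n := n) (v := c) (by omega)
    have pd := rad_pos (n := n) (v := d) hdn
    have na : 0 ≤ (1 - t) * rad n a := mul_nonneg (by linarith) pa.le
    have nb : 0 ≤ t * rad n b := mul_nonneg ht0 pb.le
    have nc : 0 ≤ (1 - s) * rad n c := mul_nonneg (by linarith) pc.le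
    have nd : 0 ≤ s * rad n d := mul_nonneg hs0 pd.le
    rcases sec_unique i5 j5 na nb nc nd (hx.symm.trans hy) with
      ⟨e1, e2, e3⟩ | ⟨e1, e2, e3, e4⟩ | ⟨e1, e2, e3, e4⟩ | ⟨e1, e2, e3, e4⟩
    · exfalso
      have aux : ∀ {p q p' q' t s : ℝ}, 0 < p' → 0 < q' → p' < p → q' < q → 0 ≤ t → 0 ≤ s →
          s ≤ 1 → (1 - t) * p = (1 - s) * p' → t * q = s * q' → False := by
        intro p q p' q' t s hp' hq' hp hq ht hs hs1 h1 h2
        rcases eq_or_lt_of_le hs1 with h3 | h3
        · subst h3
          have : (1 - t) * p = 0 := by rw [h1]; ring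
          have h4 : t = 1 := by
            rcases mul_eq_zero.mp this with h | h
            · linarith
            · linarith
          subst h4
          linarith
        · have h4 : (1 - s) * p' < (1 - s) * p := by
            apply mul_lt_mul_of_pos_left hp; linarith
          have h5 : (1 - t) < (1 - s) := by
            by_contra hcon
            push Not at hcon
            have : (1 - s) * p ≤ (1 - t) * p := mul_le_mul_of_nonneg_right hcon (by linarith)
            linarith
          have h6 : s * q ≥ s * q' := mul_le_mul_of_nonneg_left hq.le hs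
          have h7 : s * q < t * q := mul_lt_mul_of_pos_right (by linarith) (by linarith)
          linarith
      rcases lt_trichotomy a c with h | h | h
      · exact aux pc pd (rad_lt h) (rad_lt (by omega)) ht0 hs0 hs1 e2 e3
      · exact hne ⟨h, by omega⟩
      · exact aux pa pb (rad_lt h) (rad_lt (by omega)) hs0 ht0 ht1 e2.symm e3.symm
    · have t1 : t = 1 := by
        rcases mul_eq_zero.mp e2 with h | h
        · linarith
        · linarith
      have s0 : s = 0 := by
        rcases mul_eq_zero.mp e3 with h | h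
        · exact h
        · linarith
      subst t1; subst s0
      have : rad n b = rad n c := by linarith
      have hbc := eq_of_rad_eq this
      refine ⟨c, Or.inr hbc, Or.inl rfl, ?_⟩
      rw [drawN_path (by omega), hy]
      norm_num
    · have s1 : s = 1 := by
        rcases mul_eq_zero.mp e2 with h | h
        · linarith
        · linarith
      have t0 : t = 0 := by
        rcases mul_eq_zero.mp e3 with h | h
        · exact h
        · linarith
      subst s1; subst t0
      have : rad n d = rad n a := by linarith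
      have hda := eq_of_rad_eq this
      refine ⟨a, Or.inl rfl, Or.inr hda, ?_⟩
      rw [drawN_path (by omega), hx]
      norm_num
    · exfalso
      rcases mul_eq_zero.mp e1 with h | h
      · rcases mul_eq_zero.mp e2 with h' | h'
        · linarith
        · linarith
      · linarith
  · -- path, rung
    have pa := rad_pos (n := n) (v := a) (by omega)
    have pb := rad_pos (n := n) (v := b) hbn
    have pd := rad_pos (n := n) (v := d) hdn
    have na : 0 ≤ (1 - t) * rad n a := mul_nonneg (by linarith) pa.le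
    have nb : 0 ≤ t * rad n b := mul_nonneg ht0 pb.le
    rcases sec_unique i5 j5 na nb (by linarith) le_rfl (hx.symm.trans hy) with
      ⟨e1, e2, e3⟩ | ⟨e1, e2, e3, e4⟩ | ⟨e1, e2, e3, e4⟩ | ⟨e1, e2, e3, e4⟩
    · have t0 : t = 0 := by
        rcases mul_eq_zero.mp e3 with h | h
        · exact h
        · linarith
      subst t0
      have er : rad n a = r' := by linarith
      have g1 := le_of_rad_le (n := n) (v := c) (w := a) (by linarith)
      have g2 := le_of_rad_le (n := n) (v := a) (w := d) (by linarith)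
      refine ⟨a, Or.inl rfl, by omega, ?_⟩
      rw [drawN_path (by omega), hx]
      norm_num
    · have t1 : t = 1 := by
        rcases mul_eq_zero.mp e2 with h | h
        · linarith
        · linarith
      subst t1
      have er : rad n b = r' := by linarith
      have g1 := le_of_rad_le (n := n) (v := c) (w := b) (by linarith)
      have g2 := le_of_rad_le (n := n) (v := b) (w := d) (by linarith)
      refine ⟨b, Or.inr rfl, by omega, ?_⟩
      subst hb
      rw [drawN_path' hbn, hx]
      norm_num
    · exfalso; linarith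
    · exfalso; linarith
  · -- path, cap
    have pa := rad_pos (n := n) (v := a) (by omega)
    have pb := rad_pos (n := n) (v := b) hbn
    have na : 0 ≤ (1 - t) * rad n a := mul_nonneg (by linarith) pa.le
    have nb : 0 ≤ t * rad n b := mul_nonneg ht0 pb.le
    rcases sec_unique i5 j5 na nb hr0' le_rfl (hx.symm.trans hy) with
      ⟨e1, e2, e3⟩ | ⟨e1, e2, e3, e4⟩ | ⟨e1, e2, e3, e4⟩ | ⟨e1, e2, e3, e4⟩
    · have t0 : t = 0 := by
        rcases mul_eq_zero.mp e3 with h | h
        · exact h
        · linarith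
      subst t0
      have g1 := le_of_rad_le (n := n) (v := c) (w := a) (by linarith)
      refine ⟨a, Or.inl rfl, by omega, ?_⟩
      rw [drawN_path (by omega), hx]
      norm_num
    · have t1 : t = 1 := by
        rcases mul_eq_zero.mp e2 with h | h
        · linarith
        · linarith
      subst t1
      have g1 := le_of_rad_le (n := n) (v := c) (w := b) (by linarith)
      refine ⟨b, Or.inr rfl, by omega, ?_⟩
      subst hb
      rw [drawN_path' hbn, hx]
      norm_num
    · exfalso
      have h4 : (1 - t) * rad n a = 0 := e4.symm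
      rcases mul_eq_zero.mp h4 with h | h
      · rcases mul_eq_zero.mp e3 with h' | h'
        · linarith
        · linarith
      · linarith
    · exfalso
      rcases mul_eq_zero.mp e1 with h | h
      · rcases mul_eq_zero.mp e2 with h' | h'
        · linarith
        · linarith
      · linarith
  · -- rung, path
    have pb := rad_pos (n := n) (v := b) hbn
    have pc := rad_pos (n := n) (v := c) (by omega)
    have pd := rad_pos (n := n) (v := d) hdn
    have nc : 0 ≤ (1 - s) * rad n c := mul_nonneg (by linarith) pc.le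
    have nd : 0 ≤ s * rad n d := mul_nonneg hs0 pd.le
    rcases sec_unique j5 i5 nc nd (by linarith) le_rfl (hy.symm.trans hx) with
      ⟨e1, e2, e3⟩ | ⟨e1, e2, e3, e4⟩ | ⟨e1, e2, e3, e4⟩ | ⟨e1, e2, e3, e4⟩
    · have s0 : s = 0 := by
        rcases mul_eq_zero.mp e3 with h | h
        · exact h
        · linarith
      subst s0
      have g1 := le_of_rad_le (n := n) (v := a) (w := c) (by linarith)
      have g2 := le_of_rad_le (n := n) (v := c) (w := b) (by linarith)
      refine ⟨c, by omega, Or.inl rfl, ?_⟩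
      rw [drawN_path (by omega), hy]
      norm_num
    · have s1 : s = 1 := by
        rcases mul_eq_zero.mp e2 with h | h
        · linarith
        · linarith
      subst s1
      have g1 := le_of_rad_le (n := n) (v := a) (w := d) (by linarith)
      have g2 := le_of_rad_le (n := n) (v := d) (w := b) (by linarith)
      refine ⟨d, by omega, Or.inr rfl, ?_⟩
      subst hd
      rw [drawN_path' hdn, hy]
      norm_num
    · exfalso; linarith
    · exfalso; linarith
  · -- rung, rung
    have pb := rad_pos (n := n) (v := b) hbn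
    have pd := rad_pos (n := n) (v := d) hdn
    exfalso
    rcases sec_unique i5 j5 (by linarith) le_rfl (by linarith) le_rfl (hx.symm.trans hy) with
      ⟨e1, e2, e3⟩ | ⟨e1, e2, e3, e4⟩ | ⟨e1, e2, e3, e4⟩ | ⟨e1, e2, e3, e4⟩
    · have g1 := le_of_rad_le (n := n) (v := a) (w := d) (by linarith)
      have g2 := le_of_rad_le (n := n) (v := c) (w := b) (by linarith)
      omega
    · linarith
    · linarith
    · linarith
  · -- rung, cap
    have pb := rad_pos (n := n) (v := b) hbn
    rcases sec_unique i5 j5 (by linarith) le_rfl hr0' le_rfl (hx.symm.trans hy) with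
      ⟨e1, e2, e3⟩ | ⟨e1, e2, e3, e4⟩ | ⟨e1, e2, e3, e4⟩ | ⟨e1, e2, e3, e4⟩
    · have g1 := le_of_rad_le (n := n) (v := c) (w := b) (by linarith)
      have hbc : b = c := by omega
      refine ⟨c, by omega, Or.inl rfl, ?_⟩
      have : r' = rad n c := by
        rw [hbc] at hr0
        linarith
      rw [drawN_path (by omega), hy, this]
    · exfalso; linarith
    · exfalso; linarith
    · exfalso; linarith
  · -- cap, path
    have pc := rad_pos (n := n) (v := c) (by omega)
    have pd := rad_pos (n := n) (v := d) hdn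
    have nc : 0 ≤ (1 - s) * rad n c := mul_nonneg (by linarith) pc.le
    have nd : 0 ≤ s * rad n d := mul_nonneg hs0 pd.le
    rcases sec_unique j5 i5 nc nd hr0 le_rfl (hy.symm.trans hx) with
      ⟨e1, e2, e3⟩ | ⟨e1, e2, e3, e4⟩ | ⟨e1, e2, e3, e4⟩ | ⟨e1, e2, e3, e4⟩
    · have s0 : s = 0 := by
        rcases mul_eq_zero.mp e3 with h | h
        · exact h
        · linarith
      subst s0
      have g1 := le_of_rad_le (n := n) (v := a) (w := c) (by linarith)
      refine ⟨c, by omega, Or.inl rfl, ?_⟩
      rw [drawN_path (by omega), hy]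
      norm_num
    · have s1 : s = 1 := by
        rcases mul_eq_zero.mp e2 with h | h
        · linarith
        · linarith
      subst s1
      have g1 := le_of_rad_le (n := n) (v := a) (w := d) (by linarith)
      refine ⟨d, by omega, Or.inr rfl, ?_⟩
      subst hd
      rw [drawN_path' hdn, hy]
      norm_num
    · exfalso
      have h4 : (1 - s) * rad n c = 0 := e4.symm
      rcases mul_eq_zero.mp h4 with h | h
      · rcases mul_eq_zero.mp e3 with h' | h'
        · linarith
        · linarith
      · linarith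
    · exfalso
      rcases mul_eq_zero.mp e1 with h | h
      · rcases mul_eq_zero.mp e2 with h' | h'
        · linarith
        · linarith
      · linarith
  · -- cap, rung
    have pd := rad_pos (n := n) (v := d) hdn
    rcases sec_unique j5 i5 (by linarith) le_rfl hr0 le_rfl (hy.symm.trans hx) with
      ⟨e1, e2, e3⟩ | ⟨e1, e2, e3, e4⟩ | ⟨e1, e2, e3, e4⟩ | ⟨e1, e2, e3, e4⟩
    · have g1 := le_of_rad_le (n := n) (v := a) (w := d) (by linarith)
      have hda : d = a := by omega
      refine ⟨a, Or.inl rfl, by omega, ?_⟩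
      have : r = rad n a := by
        rw [hda] at hr0'
        linarith
      rw [drawN_path (by omega), hx, this]
    · exfalso; linarith
    · exfalso; linarith
    · exfalso; linarith
  · -- cap, cap
    refine ⟨n + 1, Or.inr hb.symm, Or.inr hd.symm, ?_⟩
    have hz : r = 0 → drawN n (n + 1) = x := by
      intro h
      rw [drawN_c, hx, h]
      unfold secP
      simp
    rcases sec_unique i5 j5 hr0 le_rfl hr0' le_rfl (hx.symm.trans hy) with
      ⟨e1, e2, e3⟩ | ⟨e1, e2, e3, e4⟩ | ⟨e1, e2, e3, e4⟩ | ⟨e1, e2, e3, e4⟩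
    · exfalso; omega
    · exact hz e2
    · exact hz (by linarith)
    · exact hz e1

end Pool.Agent.Lib.MP_0ea5e1_co
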