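import Pool.Agent.Lib.MP_0ea5e1_co.Planar

/-!
Assembly: the spiral drawing of the tube is plane.
-/

namespace Pool.Agent.Lib.MP_0ea5e1_co

lemma seg_val {p q : ℝ} {u v x : ℝ × ℝ} (hx : x ∈ segment ℝ u v) :
    ∃ s t : ℝ, 0 ≤ s ∧ 0 ≤ t ∧ s + t = 1 ∧ x = s • u + t • v ∧
      p * x.1 + q * x.2 = s * (p * u.1 + q * u.2) + t * (p * v.1 + q * v.2) := by
  obtain ⟨s, t, hs, ht, hst, rfl⟩ := hx
  refine ⟨s, t, hs, ht, hst, rfl, ?_⟩
  simp only [Prod.fst_add, Prod.snd_add, Prod.smul_fst, Prod.smul_snd, smul_eq_mul]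
  ring

/-- separating functionals at the three outer vertices -/
lemma func0 {n : ℕ} {v : ℕ} (hv : v < n) (hv0 : v ≠ 0) :
    100 * ((n : ℝ) + 10) * (drawN n v).1 + 4 * ((n : ℝ) + 10) * (drawN n v).2 <
      400 * ((n : ℝ) + 10) ^ 2 := by
  have hn : (0 : ℝ) ≤ n := Nat.cast_nonneg n
  have hv1 : (1 : ℝ) ≤ v := by exact_mod_cast Nat.one_le_iff_ne_zero.mpr hv0
  have hr : rad n v ≤ (n : ℝ) + 10 - 1 := by unfold rad; linarith
  have hp := rad_pos hv
  have hK : (0 : ℝ) < (n : ℝ) + 10 := by linarith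
  unfold drawN
  simp only [hv, if_true]
  have h5 : v % 5 < 5 := Nat.mod_lt _ (by norm_num)
  generalize rad n v = r at hr hp
  generalize (n : ℝ) + 10 = K at *
  interval_cases (v % 5) <;> norm_num [dx, dy] <;> nlinarith [mul_pos hK hp]

lemma func1 {n : ℕ} {v : ℕ} (hv : v < n) (hv0 : v ≠ 1) :
    (0 : ℝ) * (drawN n v).1 + 1 * (drawN n v).2 < 2 * ((n : ℝ) + 9) := by
  have hn : (0 : ℝ) ≤ n := Nat.cast_nonneg n
  have hp := rad_pos hv
  unfold drawN
  simp only [hv, if_true]
  by_cases h0 : v = 0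
  · subst h0
    norm_num [dy]
    linarith
  · have h2 : 2 ≤ v := by omega
    have hv1 : (2 : ℝ) ≤ v := by exact_mod_cast h2
    have hr : rad n v ≤ (n : ℝ) + 8 := by unfold rad; linarith
    have h5 : v % 5 < 5 := Nat.mod_lt _ (by norm_num)
    generalize rad n v = r at hr hp
    interval_cases (v % 5) <;> norm_num [dx, dy] <;> nlinarith

lemma func3 {n : ℕ} {v : ℕ} (hv : v < n) (hv0 : v ≠ 3) :
    (-(100 * ((n : ℝ) + 10))) * (drawN n v).1 + 4 * ((n : ℝ) + 7) * (drawN n v).2 <
      400 * ((n : ℝ) + 10) * ((n : ℝ) + 7) := by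
  have hn : (0 : ℝ) ≤ n := Nat.cast_nonneg n
  have hp := rad_pos hv
  unfold drawN
  simp only [hv, if_true]
  by_cases h0 : v = 0
  · subst h0
    norm_num [dx, dy, rad]
    nlinarith
  by_cases h1 : v = 1
  · subst h1
    norm_num [dx, dy, rad]
    nlinarith
  by_cases h2 : v = 2
  · subst h2
    norm_num [dx, dy, rad]
    nlinarith
  · have h4 : 4 ≤ v := by omega
    have hv1 : (4 : ℝ) ≤ v := by exact_mod_cast h4
    have hr : rad n v ≤ (n : ℝ) + 6 := by unfold rad; linarith
    have h5 : v % 5 < 5 := Nat.mod_lt _ (by norm_num)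
    generalize rad n v = r at hr hp
    interval_cases (v % 5) <;> norm_num [dx, dy] <;> nlinarith [mul_nonneg hn hn, mul_nonneg hn hp.le]

/-- summary of the separating functionals -/
lemma exists_func {n a : ℕ} (hn : 4 ≤ n) (ha : a = 0 ∨ a = 1 ∨ a = 3) :
    ∃ p q M : ℝ, 0 < M ∧ (∀ v, v < n → v ≠ a → p * (drawN n v).1 + q * (drawN n v).2 < M) ∧
      p * (drawN n a).1 + q * (drawN n a).2 = M ∧
      M ≤ p * (drawN n n).1 + q * (drawN n n).2 ∧
      (a ≠ 1 → p * (drawN n n).1 + q * (drawN n n).2 = M) := by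
  have hn0 : (0 : ℝ) ≤ n := Nat.cast_nonneg n
  rcases ha with rfl | rfl | rfl
  · refine ⟨100 * ((n : ℝ) + 10), 4 * ((n : ℝ) + 10), 400 * ((n : ℝ) + 10) ^ 2, by positivity,
      fun v hv hv0 => func0 hv hv0, ?_, ?_, ?_⟩
    · unfold drawN
      rw [if_pos (by omega)]
      norm_num [dx, dy, rad]; ring
    · rw [drawN_o]; norm_num; nlinarith
    · intro _; rw [drawN_o]; norm_num; ring
  · refine ⟨0, 1, 2 * ((n : ℝ) + 9), by positivity,
      fun v hv hv0 => func1 hv hv0, ?_, ?_, ?_⟩
    · unfold drawN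
      rw [if_pos (by omega)]
      norm_num [dx, dy, rad]; ring
    · rw [drawN_o]; norm_num; nlinarith
    · intro h; exact absurd rfl h
  · refine ⟨-(100 * ((n : ℝ) + 10)), 4 * ((n : ℝ) + 7), 400 * ((n : ℝ) + 10) * ((n : ℝ) + 7),
      by positivity, fun v hv hv0 => func3 hv hv0, ?_, ?_, ?_⟩
    · unfold drawN
      rw [if_pos (by omega)]
      norm_num [dx, dy, rad]; ring
    · rw [drawN_o]; norm_num; nlinarith
    · intro _; rw [drawN_o]; norm_num; ring

/-- an edge at the cap `n` versus another edge -/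
lemma o_inter {n a c d : ℕ} {x : ℝ × ℝ} (hn : 4 ≤ n) (ha : a = 0 ∨ a = 1 ∨ a = 3)
    (hr : tubeRel n c d) (hd : d ≠ n) (h1 : x ∈ segment ℝ (drawN n a) (drawN n n))
    (h2 : x ∈ segment ℝ (drawN n c) (drawN n d)) :
    ∃ v, (v = a ∨ v = n) ∧ (v = c ∨ v = d) ∧ drawN n v = x := by
  obtain ⟨p, q, M, hM, hlt, hMa, hMo, _⟩ := exists_func hn ha
  obtain ⟨s, t, hs, ht, hst, hx, hval⟩ := seg_val (p := p) (q := q) h1
  obtain ⟨s', t', hs', ht', hst', hx', hval'⟩ := seg_val (p := p) (q := q) h2
  have hge : M ≤ p * x.1 + q * x.2 := by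
    rw [hval, hMa]
    have : s * M + t * M = M := by rw [← add_mul, hst, one_mul]
    nlinarith
  have hcd : c < n ∧ (d < n ∨ d = n + 1) := by unfold tubeRel at hr; omega
  have hltd : d ≠ a → p * (drawN n d).1 + q * (drawN n d).2 < M := by
    intro hda
    rcases hcd.2 with h | h
    · exact hlt d h hda
    · rw [h, drawN_c]; simpa using hM
  by_cases hca : c = a
  · have hda : d ≠ a := by have := tubeRel_lt hn hr; omega
    have h3 := hltd hda
    have ht0 : t' = 0 := by
      by_contra hne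
      have htpos : 0 < t' := lt_of_le_of_ne ht' (Ne.symm hne)
      rw [hval', hca, hMa] at hge
      have : s' * M + t' * M = M := by rw [← add_mul, hst', one_mul]
      nlinarith
    refine ⟨a, Or.inl rfl, Or.inl hca.symm, ?_⟩
    have hs1 : s' = 1 := by linarith
    rw [hx', ht0, hs1, hca]
    simp
  · have h4 := hlt c hcd.1 hca
    by_cases hda : d = a
    · have hs0 : s' = 0 := by
        by_contra hne
        have hspos : 0 < s' := lt_of_le_of_ne hs' (Ne.symm hne)
        rw [hval', hda, hMa] at hge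
        have : s' * M + t' * M = M := by rw [← add_mul, hst', one_mul]
        nlinarith
      refine ⟨a, Or.inl rfl, Or.inr hda.symm, ?_⟩
      have ht1 : t' = 1 := by linarith
      rw [hx', hs0, ht1, hda]
      simp
    · exfalso
      have h3 := hltd hda
      rw [hval'] at hge
      have : s' * M + t' * M = M := by rw [← add_mul, hst', one_mul]
      rcases eq_or_lt_of_le hs' with h | h
      · have ht1 : t' = 1 := by linarith
        rw [← h, ht1] at hge
        linarith
      · nlinarith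

lemma oo_inter {n a c : ℕ} {x : ℝ × ℝ} (hn : 4 ≤ n) (ha : a = 0 ∨ a = 1 ∨ a = 3)
    (hc : c = 0 ∨ c = 1 ∨ c = 3) (hac : a ≠ c) (h1 : x ∈ segment ℝ (drawN n a) (drawN n n))
    (h2 : x ∈ segment ℝ (drawN n c) (drawN n n)) : drawN n n = x := by
  have key : ∀ a c, (a = 0 ∨ a = 1 ∨ a = 3) → (c = 0 ∨ c = 1 ∨ c = 3) → a ≠ c → a ≠ 1 →
      x ∈ segment ℝ (drawN n a) (drawN n n) → x ∈ segment ℝ (drawN n c) (drawN n n) →
      drawN n n = x := by
    intro a c ha hc hac ha1 h1 h2
    obtain ⟨p, q, M, hM, hlt, hMa, hMo, hMo'⟩ := exists_func hn ha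
    have hMo'' := hMo' ha1
    obtain ⟨s, t, hs, ht, hst, hx, hval⟩ := seg_val (p := p) (q := q) h1
    obtain ⟨s', t', hs', ht', hst', hx', hval'⟩ := seg_val (p := p) (q := q) h2
    have hcn : c < n := by
      rcases hc with h | h | h
      · omega
      · omega
      · omega
    have h4 := hlt c hcn (Ne.symm hac)
    rw [hMa, hMo'', ← add_mul, hst, one_mul] at hval
    rw [hMo'', hval] at hval'
    have hs0 : s' = 0 := by
      by_contra hne
      have hspos : 0 < s' := lt_of_le_of_ne hs' (Ne.symm hne)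
      have : s' * M + t' * M = M := by rw [← add_mul, hst', one_mul]
      nlinarith
    have ht1 : t' = 1 := by linarith
    rw [hx', hs0, ht1]
    simp
  by_cases ha1 : a = 1
  · exact key c a hc ha (Ne.symm hac) (by omega) h2 h1
  · exact key a c ha hc hac ha1 h1 h2

lemma plane_norm {n a b c d : ℕ} {x : ℝ × ℝ} (hn : 4 ≤ n) (h1 : tubeRel n a b)
    (h2 : tubeRel n c d) (hne : ¬ (a = c ∧ b = d)) (hx : x ∈ segment ℝ (drawN n a) (drawN n b))
    (hy : x ∈ segment ℝ (drawN n c) (drawN n d)) :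
    ∃ v, (v = a ∨ v = b) ∧ (v = c ∨ v = d) ∧ drawN n v = x := by
  have hO : ∀ a, tubeRel n a n → (a = 0 ∨ a = 1 ∨ a = 3) := by
    intro a h; unfold tubeRel at h; omega
  by_cases hb : b = n
  · subst hb
    by_cases hd : d = b
    · subst hd
      refine ⟨d, Or.inr rfl, Or.inr rfl, ?_⟩
      exact oo_inter hn (hO a h1) (hO c h2) (fun h => hne ⟨h, rfl⟩) hx hy
    · exact o_inter hn (hO a h1) h2 hd hx hy
  · by_cases hd : d = n
    · subst hd
      obtain ⟨v, hv1, hv2, hv3⟩ := o_inter hn (hO c h2) h1 hb hy hx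
      exact ⟨v, hv2, hv1, hv3⟩
    · exact edgePt_inter (edgePt_of h1 hb hx) (edgePt_of h2 hd hy) hne

lemma drawN_inj {n v w : ℕ} (hv : v < n + 2) (hw : w < n + 2) (h : drawN n v = drawN n w) :
    v = w := by
  have i5 : v % 5 < 5 := Nat.mod_lt _ (by norm_num)
  have j5 : w % 5 < 5 := Nat.mod_lt _ (by norm_num)
  have hK : (0 : ℝ) < (n : ℝ) + 10 := by positivity
  have hnc : ∀ u, u < n → drawN n u ≠ (0, 0) := by
    intro u hu h0
    rw [drawN_path hu] at h0
    have h1 : secP (u % 5) (rad n u) 0 = secP (u % 5) 0 0 := by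
      rw [h0]; unfold secP; simp
    have := (sec_same (Nat.mod_lt _ (by norm_num)) h1).1
    have := rad_pos hu
    linarith
  have hno : ∀ u, u < n → drawN n u ≠ drawN n n := by
    intro u hu h0
    have h2 : (drawN n u).2 = (drawN n n).2 := by rw [h0]
    rw [drawN_o] at h2
    unfold drawN at h2
    simp only [hu, if_true] at h2
    have h5 : u % 5 < 5 := Nat.mod_lt _ (by norm_num)
    have hr : rad n u ≤ (n : ℝ) + 10 := by
      unfold rad; have : (0 : ℝ) ≤ u := Nat.cast_nonneg u; linarith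
    have hp := rad_pos hu
    generalize rad n u = r at *
    interval_cases (u % 5) <;> norm_num [dy] at h2 <;> nlinarith
  have hcases : ∀ u, u < n + 2 → u < n ∨ u = n ∨ u = n + 1 := by intro u hu; omega
  rcases hcases v hv with h1 | h1 | h1 <;> rcases hcases w hw with h2 | h2 | h2
  · rw [drawN_path h1, drawN_path h2] at h
    have p1 := rad_pos h1
    have p2 := rad_pos h2
    rcases sec_unique i5 j5 p1.le le_rfl p2.le le_rfl h with
      ⟨e1, e2, e3⟩ | ⟨e1, e2, e3, e4⟩ | ⟨e1, e2, e3, e4⟩ | ⟨e1, e2, e3, e4⟩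
    · exact (eq_of_rad_eq e2).symm
    · linarith
    · linarith
    · linarith
  · subst h2; exact absurd h (hno v h1)
  · subst h2; rw [drawN_c] at h; exact absurd h (hnc v h1)
  · subst h1; exact absurd h.symm (hno w h2)
  · omega
  · subst h1; subst h2
    rw [drawN_o, drawN_c] at h
    have := congrArg Prod.snd h
    simp only at this
    linarith
  · subst h1; rw [drawN_c] at h; exact absurd h.symm (hnc w h2)
  · subst h1; subst h2
    rw [drawN_o, drawN_c] at h
    have := congrArg Prod.snd h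
    simp only at this
    linarith
  · omega

/-- The helical tube is planar. -/
theorem tube_planar {n : ℕ} (hn : 4 ≤ n) : IsPlane (tube n) (fun v => drawN n v.val) := by
  have hinj : Function.Injective (fun v : Fin (n + 2) => drawN n v.val) := by
    intro v w h
    exact Fin.ext (drawN_inj v.isLt w.isLt h)
  have hcond : ∀ a b c d : Fin (n + 2), (tube n).Adj a b → (tube n).Adj c d →
      s(a, b) ≠ s(c, d) → ∀ x, x ∈ segment ℝ (drawN n a.val) (drawN n b.val) →
      x ∈ segment ℝ (drawN n c.val) (drawN n d.val) →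
      ∃ v, v ∈ s(a, b) ∧ v ∈ s(c, d) ∧ drawN n v.val = x := by
    have base : ∀ a b c d : Fin (n + 2), tubeRel n a b → tubeRel n c d →
        s(a, b) ≠ s(c, d) → ∀ x, x ∈ segment ℝ (drawN n a.val) (drawN n b.val) →
        x ∈ segment ℝ (drawN n c.val) (drawN n d.val) →
        ∃ v, v ∈ s(a, b) ∧ v ∈ s(c, d) ∧ drawN n v.val = x := by
      intro a b c d h1 h2 hne x hx hy
      obtain ⟨v, hv1, hv2, hv3⟩ := plane_norm hn h1 h2 (by
        rintro ⟨e1, e2⟩
        apply hne
        rw [Fin.ext e1, Fin.ext e2]) hx hy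
      have hvlt : v < n + 2 := by
        rcases hv1 with h | h
        · rw [h]; exact a.isLt
        · rw [h]; exact b.isLt
      refine ⟨⟨v, hvlt⟩, ?_, ?_, hv3⟩
      · rw [Sym2.mem_iff]
        rcases hv1 with h | h
        · exact Or.inl (Fin.ext h)
        · exact Or.inr (Fin.ext h)
      · rw [Sym2.mem_iff]
        rcases hv2 with h | h
        · exact Or.inl (Fin.ext h)
        · exact Or.inr (Fin.ext h)
    intro a b c d h1 h2 hne x hx hy
    rcases h1.2 with h1 | h1 <;> rcases h2.2 with h2 | h2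
    · exact base a b c d h1 h2 hne x hx hy
    · rw [segment_symm] at hy
      obtain ⟨v, e1, e2, e3⟩ := base a b d c h1 h2 (by rwa [Sym2.eq_swap (a := d)]) x hx hy
      exact ⟨v, e1, by rwa [Sym2.eq_swap], e3⟩
    · rw [segment_symm] at hx
      obtain ⟨v, e1, e2, e3⟩ := base b a c d h1 h2 (by rwa [Sym2.eq_swap (a := b)]) x hx hy
      exact ⟨v, by rwa [Sym2.eq_swap], e2, e3⟩
    · rw [segment_symm] at hx hy
      obtain ⟨v, e1, e2, e3⟩ := base b a d c h1 h2
        (by rwa [Sym2.eq_swap (a := b), Sym2.eq_swap (a := d)]) x hx hy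
      exact ⟨v, by rwa [Sym2.eq_swap], by rwa [Sym2.eq_swap], e3⟩
  refine ⟨hinj, hcond, ?_⟩
  intro a b v hab hv
  have hab' : drawN n a.val ≠ drawN n b.val := fun h => hab.ne (hinj h)
  by_cases hva : v = a
  · subst hva
    exact hab' (left_mem_openSegment_iff.mp hv)
  by_cases hvb : v = b
  · subst hvb
    exact hab' (right_mem_openSegment_iff.mp hv)
  -- a neighbour of `v`
  obtain ⟨w, hw⟩ : ∃ w, (tube n).Adj v w := by
    have hlt := v.isLt
    by_cases h1 : v.val + 1 < n
    · refine ⟨⟨v.val + 1, by omega⟩, ?_, Or.inl ?_⟩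
      · intro h
        have h5 : v.val = v.val + 1 := congrArg Fin.val h
        omega
      · change tubeRel n v.val (v.val + 1)
        unfold tubeRel; omega
    by_cases h2 : v.val < n
    · refine ⟨⟨v.val - 1, by omega⟩, ?_, Or.inr ?_⟩
      · intro h
        have h5 : v.val = v.val - 1 := congrArg Fin.val h
        omega
      · change tubeRel n (v.val - 1) v.val
        unfold tubeRel; omega
    by_cases h3 : v.val = n
    · refine ⟨⟨0, by omega⟩, ?_, Or.inr ?_⟩
      · intro h
        have h5 : v.val = 0 := congrArg Fin.val h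
        omega
      · change tubeRel n 0 v.val
        unfold tubeRel; omega
    · refine ⟨⟨n - 1, by omega⟩, ?_, Or.inr ?_⟩
      · intro h
        have h5 : v.val = n - 1 := congrArg Fin.val h
        omega
      · change tubeRel n (n - 1) v.val
        unfold tubeRel; omega
  have hne : s(v, w) ≠ s(a, b) := by
    intro h
    have : v ∈ s(a, b) := by rw [← h]; exact Sym2.mem_mk_left v w
    rw [Sym2.mem_iff] at this
    rcases this with h | h
    · exact hva h
    · exact hvb h
  obtain ⟨u, _, hu2, hu3⟩ := hcond v w a b hw hab hne (drawN n v.val) (left_mem_segment ℝ _ _)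
    (openSegment_subset_segment ℝ _ _ hv)
  have : u = v := hinj hu3
  subst this
  rw [Sym2.mem_iff] at hu2
  rcases hu2 with h | h
  · exact hva h
  · exact hvb h

end Pool.Agent.Lib.MP_0ea5e1_co
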