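import Pool.Agent.Lib.MP_0ea5e1_co.Defs
import Pool.Agent.Lib.MP_0ea5e1_co.Hex
import Pool.Agent.Lib.MP_0ea5e1_co.Perturb

/-!
In a plane drawing of the helical tube every hexagon separates what is below from what is
above.
-/

open Filter Topology Set

namespace Pool.Agent.Lib.MP_0ea5e1_co

/-- the `k`-th vertex of the path -/
def vx (n : ℕ) (k : ℕ) : Fin (n + 2) := Fin.ofNat (n + 2) k

lemma vx_val {n k : ℕ} (hk : k < n + 2) : (vx n k).val = k := by
  unfold vx; simp [Fin.ofNat, Nat.mod_eq_of_lt hk]

lemma vx_ne {n k l : ℕ} (hk : k < n + 2) (hl : l < n + 2) (h : k ≠ l) : vx n k ≠ vx n l := by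
  intro h0
  apply h
  have := congrArg Fin.val h0
  rwa [vx_val hk, vx_val hl] at this

lemma tube_adj_vx {n k l : ℕ} (hk : k < n + 2) (hl : l < n + 2) (hkl : k ≠ l)
    (h : tubeRel n k l ∨ tubeRel n l k) : (tube n).Adj (vx n k) (vx n l) := by
  refine ⟨vx_ne hk hl hkl, ?_⟩
  rw [vx_val hk, vx_val hl]
  exact h

/-- vertex disjoint edges of a plane drawing are disjoint -/
lemma plane_disjoint {V : Type*} {G : SimpleGraph V} {δ : V → ℝ × ℝ} (h : IsPlane G δ)
    {a b c d : V} (hab : G.Adj a b) (hcd : G.Adj c d) (hac : a ≠ c) (had : a ≠ d)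
    (hbc : b ≠ c) (hbd : b ≠ d) :
    ∀ x, x ∈ segment ℝ (δ a) (δ b) → x ∉ segment ℝ (δ c) (δ d) := by
  intro x h1 h2
  have hne : s(a, b) ≠ s(c, d) := by
    intro h0
    rw [Sym2.eq_iff] at h0
    rcases h0 with h0 | h0
    · exact hac h0.1
    · exact had h0.1
  obtain ⟨v, hv1, hv2, _⟩ := h.2.1 a b c d hab hcd hne x h1 h2
  rw [Sym2.mem_iff] at hv1 hv2
  rcases hv1 with rfl | rfl <;> rcases hv2 with h3 | h3
  · exact hac h3
  · exact had h3
  · exact hbc h3
  · exact hbd h3

lemma X_comp {V W : Type*} (p : V → ℝ × ℝ) (w : W → V) (a b c d : W) :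
    X (p ∘ w) a b c d = X p (w a) (w b) (w c) (w d) := rfl

/-- The closed hexagon based at `i`. -/
def hexList (n i : ℕ) : List (Fin (n + 2)) :=
  [vx n (i + 1), vx n (i + 2), vx n (i + 3), vx n (i + 4), vx n (i + 5), vx n i]

/-- General position form of the separation lemma. -/
lemma separate_genPos {n : ℕ} {p : Fin (n + 2) → ℝ × ℝ} (hp : GenPos p)
    (hE : ∀ a b c d : Fin (n + 2), (tube n).Adj a b → (tube n).Adj c d → a ≠ c → a ≠ d →
      b ≠ c → b ≠ d → X p a b c d = 0)
    {i : ℕ} (hi : i % 2 = 0) (hi4 : 4 ≤ i) (hin : i + 9 < n) {a b : ℕ} (hb : b < i)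
    (ha : i + 5 < a) (han : a < n) :
    XW p (vx n b) (vx n a) (vx n i) (hexList n i) = 1 := by
  -- the fourteen point configuration
  set w : Fin 14 → Fin (n + 2) := fun k => vx n (i - 4 + k.val) with hw
  have hwinj : Function.Injective w := by
    intro k l hkl
    by_contra hne
    have : (k.val : ℕ) ≠ l.val := fun h => hne (Fin.ext h)
    have hk := k.isLt
    have hl := l.isLt
    exact vx_ne (n := n) (k := i - 4 + k.val) (l := i - 4 + l.val) (by omega) (by omega)
      (by omega) hkl
  have hpw : GenPos (p ∘ w) := by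
    intro u v x huv hvx hux
    exact hp _ _ _ (hwinj.ne huv) (hwinj.ne hvx) (hwinj.ne hux)
  have hadj : ∀ k l : Fin 14, adj14 k l = true → (tube n).Adj (w k) (w l) := by
    intro k l h
    have hk := k.isLt
    have hl := l.isLt
    have hrel : (k.val + 1 = l.val ∨ l.val + 1 = k.val ∨ (k.val + 5 = l.val ∧ k.val % 2 = 0) ∨
        (l.val + 5 = k.val ∧ l.val % 2 = 0)) := by
      unfold adj14 at h
      simp only [Bool.or_eq_true, Bool.and_eq_true, beq_iff_eq] at h
      tauto
    apply tube_adj_vx (by omega) (by omega)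
    · omega
    · unfold tubeRel
      omega
  have h14 := hex14 hpw (by
    intro k l k' l' h1 h2 h3 h4 h5 h6
    rw [X_comp]
    exact hE _ _ _ _ (hadj _ _ h1) (hadj _ _ h2) (hwinj.ne h3) (hwinj.ne h4) (hwinj.ne h5)
      (hwinj.ne h6))
  have e : ∀ k : ℕ, k ≤ 9 → i - 4 + (k + 4) = i + k := by intro k _; omega
  have h14' : XW p (vx n (i - 2)) (vx n (i + 7)) (vx n i) (hexList n i) = 1 := by
    have e2 : w 2 = vx n (i - 2) := by rw [hw]; simp only; congr 1; simp; omega
    have e11 : w 11 = vx n (i + 7) := by rw [hw]; simp only; congr 1; simp; omega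
    have e4 : w 4 = vx n i := by rw [hw]; simp only; congr 1; simp; omega
    have e5 : w 5 = vx n (i + 1) := by rw [hw]; simp only; congr 1; simp; omega
    have e6 : w 6 = vx n (i + 2) := by rw [hw]; simp only; congr 1; simp; omega
    have e7 : w 7 = vx n (i + 3) := by rw [hw]; simp only; congr 1; simp; omega
    have e8 : w 8 = vx n (i + 4) := by rw [hw]; simp only; congr 1; simp; omega
    have e9 : w 9 = vx n (i + 5) := by rw [hw]; simp only; congr 1; simp; omega
    rw [← h14]
    unfold hexList
    simp only [XW, X_comp]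
    rw [e2, e11, e4, e5, e6, e7, e8, e9]
  -- additivity
  have hadd : ∀ x y z : ℕ, x < n → y < n → z < n → (x < i ∨ i + 5 < x) → (y < i ∨ i + 5 < y) →
      (z < i ∨ i + 5 < z) →
      XW p (vx n x) (vx n y) (vx n i) (hexList n i) + XW p (vx n y) (vx n z) (vx n i) (hexList n i)
        = XW p (vx n x) (vx n z) (vx n i) (hexList n i) := by
    intro x y z hx hy hz hx' hy' hz'
    apply XW_closed hp
    · intro u hu
      unfold hexList at hu
      simp only [List.mem_cons, List.not_mem_nil, or_false] at hu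
      rcases hu with rfl | rfl | rfl | rfl | rfl | rfl | rfl <;>
        exact ⟨vx_ne (by omega) (by omega) (by omega), vx_ne (by omega) (by omega) (by omega),
          vx_ne (by omega) (by omega) (by omega)⟩
    · rfl
  -- a path edge does not cross the hexagon
  have hstep : ∀ u : ℕ, u + 1 < n → (u + 1 < i ∨ i + 5 < u) →
      XW p (vx n u) (vx n (u + 1)) (vx n i) (hexList n i) = 0 := by
    intro u hu hu'
    have hz : ∀ k l : ℕ, i ≤ k → k ≤ i + 5 → i ≤ l → l ≤ i + 5 →
        (tubeRel n k l ∨ tubeRel n l k) → k ≠ l → X p (vx n u) (vx n (u + 1)) (vx n k) (vx n l) = 0 := by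
      intro k l hk1 hk2 hl1 hl2 hr hkl
      apply hE
      · exact tube_adj_vx (by omega) (by omega) (by omega) (by unfold tubeRel; omega)
      · exact tube_adj_vx (by omega) (by omega) hkl hr
      all_goals exact vx_ne (by omega) (by omega) (by omega)
    unfold hexList
    simp only [XW]
    rw [hz i (i + 1) (by omega) (by omega) (by omega) (by omega) (by unfold tubeRel; omega) (by omega),
      hz (i + 1) (i + 2) (by omega) (by omega) (by omega) (by omega) (by unfold tubeRel; omega) (by omega),
      hz (i + 2) (i + 3) (by omega) (by omega) (by omega) (by omega) (by unfold tubeRel; omega) (by omega),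
      hz (i + 3) (i + 4) (by omega) (by omega) (by omega) (by omega) (by unfold tubeRel; omega) (by omega),
      hz (i + 4) (i + 5) (by omega) (by omega) (by omega) (by omega) (by unfold tubeRel; omega) (by omega),
      hz (i + 5) i (by omega) (by omega) (by omega) (by omega) (by unfold tubeRel; omega) (by omega)]
    decide
  have hself : ∀ u : ℕ, XW p (vx n u) (vx n u) (vx n i) (hexList n i) = 0 := by
    intro u
    unfold hexList
    simp only [XW, X_self_left, add_zero]
  -- below
  have hbelow : ∀ u : ℕ, u < i → XW p (vx n 0) (vx n u) (vx n i) (hexList n i) = 0 := by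
    intro u
    induction u with
    | zero => intro _; exact hself 0
    | succ u ih =>
      intro hu
      rw [← hadd 0 u (u + 1) (by omega) (by omega) (by omega) (by omega) (by omega) (by omega),
        ih (by omega), hstep u (by omega) (by omega)]
      decide
  have habove : ∀ u : ℕ, i + 6 + u < n →
      XW p (vx n (i + 6)) (vx n (i + 6 + u)) (vx n i) (hexList n i) = 0 := by
    intro u
    induction u with
    | zero => intro _; exact hself (i + 6)
    | succ u ih =>
      intro hu
      rw [← hadd (i + 6) (i + 6 + u) (i + 6 + (u + 1)) (by omega) (by omega) (by omega) (by omega)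
        (by omega) (by omega), ih (by omega)]
      have := hstep (i + 6 + u) (by omega) (by omega)
      rw [show i + 6 + (u + 1) = i + 6 + u + 1 by ring, this]
      decide
  have h1 := hbelow b hb
  have h2 := hbelow (i - 2) (by omega)
  have h3 := habove 1 (by omega)
  have h4 := habove (a - (i + 6)) (by omega)
  rw [show i + 6 + (a - (i + 6)) = a by omega] at h4
  rw [show i + 6 + 1 = i + 7 by ring] at h3
  have g1 := hadd 0 b a (by omega) (by omega) (by omega) (by omega) (by omega) (by omega)
  have g2 := hadd 0 (i - 2) a (by omega) (by omega) (by omega) (by omega) (by omega) (by omega)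
  have g3 := hadd (i - 2) (i + 7) a (by omega) (by omega) (by omega) (by omega) (by omega) (by omega)
  have g4 := hadd (i + 6) (i + 7) a (by omega) (by omega) (by omega) (by omega) (by omega) (by omega)
  rw [h1, zero_add] at g1
  rw [h2, zero_add] at g2
  rw [h3, h4, zero_add] at g4
  rw [h14', g4, add_zero] at g3
  rw [g1, ← g2, ← g3]

/-- In a plane drawing of the tube a segment from below to above meets the hexagon. -/
theorem separate {n : ℕ} {δ : Fin (n + 2) → ℝ × ℝ} (hδ : IsPlane (tube n) δ)
    {i : ℕ} (hi : i % 2 = 0) (hi4 : 4 ≤ i) (hin : i + 9 < n) {a b : ℕ} (hb : b < i)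
    (ha : i + 5 < a) (han : a < n) :
    ∃ m : Fin 6, ∃ x, x ∈ segment ℝ (δ (vx n b)) (δ (vx n a)) ∧
      x ∈ segment ℝ (δ (vx n (i + m.val))) (δ (vx n (i + (m.val + 1) % 6))) := by
  by_contra hcon
  push Not at hcon
  -- perturb
  set t : Fin (n + 2) → ℝ := fun v => (v.val : ℝ) with ht
  have htinj : Function.Injective t := by
    intro u v h
    apply Fin.ext
    simp only [ht] at h
    exact_mod_cast h
  have h1 := eventually_genPos δ htinj
  have h2 : ∀ᶠ ε in 𝓝[>] (0 : ℝ), ∀ a b c d : Fin (n + 2), (tube n).Adj a b →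
      (tube n).Adj c d → a ≠ c → a ≠ d → b ≠ c → b ≠ d → ∀ x,
      x ∈ segment ℝ (pert δ t ε a) (pert δ t ε b) →
        x ∉ segment ℝ (pert δ t ε c) (pert δ t ε d) := by
    rw [eventually_all]; intro a
    rw [eventually_all]; intro b
    rw [eventually_all]; intro c
    rw [eventually_all]; intro d
    by_cases hh : (tube n).Adj a b ∧ (tube n).Adj c d ∧ a ≠ c ∧ a ≠ d ∧ b ≠ c ∧ b ≠ d
    · obtain ⟨g1, g2, g3, g4, g5, g6⟩ := hh
      filter_upwards [eventually_disjoint δ t a b c d
        (plane_disjoint hδ g1 g2 g3 g4 g5 g6)] with ε hε _ _ _ _ _ _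
      exact hε
    · exact Eventually.of_forall (fun _ g1 g2 g3 g4 g5 g6 => absurd ⟨g1, g2, g3, g4, g5, g6⟩ hh)
  have h3 : ∀ᶠ ε in 𝓝[>] (0 : ℝ), ∀ m : Fin 6, ∀ x,
      x ∈ segment ℝ (pert δ t ε (vx n b)) (pert δ t ε (vx n a)) →
        x ∉ segment ℝ (pert δ t ε (vx n (i + m.val))) (pert δ t ε (vx n (i + (m.val + 1) % 6))) := by
    rw [eventually_all]; intro m
    exact eventually_disjoint δ t _ _ _ _ (fun x hx => hcon m x hx)
  obtain ⟨ε, g1, g2, g3⟩ := (h1.and (h2.and h3)).exists
  set p := pert δ t ε with hp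
  have hE : ∀ a b c d : Fin (n + 2), (tube n).Adj a b → (tube n).Adj c d → a ≠ c → a ≠ d →
      b ≠ c → b ≠ d → X p a b c d = 0 := by
    intro a b c d q1 q2 q3 q4 q5 q6
    exact X_eq_zero_of_disjoint g1 q3 q4 q5 q6 (g2 a b c d q1 q2 q3 q4 q5 q6)
  have hone := separate_genPos g1 hE hi hi4 hin hb ha han
  have hz : ∀ m : Fin 6, X p (vx n b) (vx n a) (vx n (i + m.val))
      (vx n (i + (m.val + 1) % 6)) = 0 := by
    intro m
    have hm := m.isLt
    apply X_eq_zero_of_disjoint g1
    · exact vx_ne (by omega) (by omega) (by omega)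
    · exact vx_ne (by omega) (by omega) (by omega)
    · exact vx_ne (by omega) (by omega) (by omega)
    · exact vx_ne (by omega) (by omega) (by omega)
    · exact g3 m
  have z0 := hz 0
  have z1 := hz 1
  have z2 := hz 2
  have z3 := hz 3
  have z4 := hz 4
  have z5 := hz 5
  norm_num at z0 z1 z2 z3 z4 z5
  unfold hexList at hone
  simp only [XW] at hone
  rw [z0, z1, z2, z3, z4, z5] at hone
  simp at hone

end Pool.Agent.Lib.MP_0ea5e1_co
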